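import Mathlib

/-!
# Planar Gaussian fields, crossing events, correlation length: definitions
-/

open MeasureTheory ProbabilityTheory

namespace GFPerc

/-- The Euclidean plane. -/
abbrev E2 := EuclideanSpace ℝ (Fin 2)

/-- `f` is a centred, stationary and isotropic Gaussian field on the plane, with almost surely
continuous sample paths, whose covariance is `E[f x f y] = κ ‖x - y‖`. -/
structure IsPlanarField {Ω : Type*} [MeasurableSpace Ω] (P : Measure Ω) (f : E2 → Ω → ℝ)
    (κ : ℝ → ℝ) : Prop where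
  gaussian : IsGaussianProcess f P
  centred : ∀ x, ∫ ω, f x ω ∂P = 0
  cov_eq : ∀ x y, covariance (f x) (f y) P = κ ‖x - y‖
  continuous : ∀ᵐ ω ∂P, Continuous (fun x => f x ω)

/-- The square `[0, R]²`. -/
def box (R : ℝ) : Set E2 := {x | ∀ i, 0 ≤ x i ∧ x i ≤ R}

/-- `Cross g ℓ R`: there is a continuous path in the square `[0, R]²`, along which `g ≤ ℓ`, joining
the left side to the right side. -/
def Cross (g : E2 → ℝ) (ℓ R : ℝ) : Prop :=
  ∃ p q : E2, p 0 = 0 ∧ q 0 = R ∧ JoinedIn {x | x ∈ box R ∧ g x ≤ ℓ} p q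

/-- The crossing event `Cross_ℓ(R)` of the field `f`. -/
def crossEvent {Ω : Type*} (f : E2 → Ω → ℝ) (ℓ R : ℝ) : Set Ω :=
  {ω | Cross (fun x => f x ω) ℓ R}

/-- The correlation length `ξ(ℓ) = inf {R ≥ 0 : P[Cross_ℓ(R)] < ε}`, as an extended
nonnegative real (the infimum of the empty set is `∞`). -/
noncomputable def xi {Ω : Type*} [MeasurableSpace Ω] (P : Measure Ω) (f : E2 → Ω → ℝ)
    (ε ℓ : ℝ) : ENNReal :=
  sInf {r | ∃ R : ℝ, 0 ≤ R ∧ r = ENNReal.ofReal R ∧
    P (crossEvent f ℓ R) < ENNReal.ofReal ε}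

end GFPerc
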