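import Mathlib

/-!
# Crossings of the triangulated square grid: left-right black or bottom-top white

Vertices are pairs `(i, j)` of natural numbers, adjacency is
`(i, j) ~ (i+1, j)`, `(i, j) ~ (i, j+1)`, `(i+1, j) ~ (i, j+1)` (the triangular lattice).
-/

namespace GFPerc

/-- Adjacency of the triangular lattice on `ℕ × ℕ`. -/
def Adj (u v : ℕ × ℕ) : Prop :=
  (v.1 = u.1 + 1 ∧ v.2 = u.2) ∨ (u.1 = v.1 + 1 ∧ v.2 = u.2) ∨
  (v.1 = u.1 ∧ v.2 = u.2 + 1) ∨ (v.1 = u.1 ∧ u.2 = v.2 + 1) ∨
  (v.1 = u.1 + 1 ∧ u.2 = v.2 + 1) ∨ (u.1 = v.1 + 1 ∧ v.2 = u.2 + 1)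

lemma Adj.symm {u v : ℕ × ℕ} (h : Adj u v) : Adj v u := by
  unfold Adj at *; omega

lemma Adj.swap {u v : ℕ × ℕ} (h : Adj u v) : Adj u.swap v.swap := by
  unfold Adj at *; simp only [Prod.fst_swap, Prod.snd_swap]; omega

/-- `Reach n B v`: the vertex `v` of the grid `{0,…,n}²` is joined to the left side
`{0} × {0,…,n}` by a lattice path inside the grid all of whose vertices are in `B`. -/
inductive Reach (n : ℕ) (B : ℕ × ℕ → Prop) : ℕ × ℕ → Prop
  | start (j : ℕ) (hj : j ≤ n) (hB : B (0, j)) : Reach n B (0, j)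
  | step (u v : ℕ × ℕ) (hu : Reach n B u) (ha : Adj u v) (h1 : v.1 ≤ n) (h2 : v.2 ≤ n)
      (hB : B v) : Reach n B v

/-- The left-right crossing of the grid `{0,…,n}²` by `B`. -/
def GridCross (n : ℕ) (B : ℕ × ℕ → Prop) : Prop :=
  ∃ j, j ≤ n ∧ Reach n B (n, j)

lemma Reach.mem {n : ℕ} {B : ℕ × ℕ → Prop} {v : ℕ × ℕ} (h : Reach n B v) : B v := by
  cases h <;> assumption

lemma Reach.le {n : ℕ} {B : ℕ × ℕ → Prop} {v : ℕ × ℕ} (h : Reach n B v) :
    v.1 ≤ n ∧ v.2 ≤ n := by
  cases h
  · exact ⟨Nat.zero_le _, by assumption⟩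
  · exact ⟨by assumption, by assumption⟩

lemma Reach.mono {n : ℕ} {B B' : ℕ × ℕ → Prop} (hB : ∀ v, v.1 ≤ n → v.2 ≤ n → B v → B' v)
    {v : ℕ × ℕ} (h : Reach n B v) : Reach n B' v := by
  induction h with
  | start j hj hb => exact Reach.start j hj (hB _ (Nat.zero_le _) hj hb)
  | step u v _ ha h1 h2 hb ih => exact Reach.step u v ih ha h1 h2 (hB _ h1 h2 hb)

lemma GridCross.mono {n : ℕ} {B B' : ℕ × ℕ → Prop} (hB : ∀ v, v.1 ≤ n → v.2 ≤ n → B v → B' v)
    (h : GridCross n B) : GridCross n B' := by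
  obtain ⟨j, hj, h⟩ := h
  exact ⟨j, hj, h.mono hB⟩

open Classical in
/-- Indicator in `ZMod 2` of a proposition. -/
noncomputable def ind (p : Prop) : ZMod 2 := if p then 1 else 0

@[simp] lemma ind_true : ind True = 1 := by unfold ind; simp

@[simp] lemma ind_false : ind False = 0 := by unfold ind; simp

lemma ind_of {p : Prop} (h : p) : ind p = 1 := by simp [h]

lemma ind_of_not {p : Prop} (h : ¬ p) : ind p = 0 := by simp [h]

/-- Indicator of label 1: black and joined to the left side. -/
noncomputable def c1 (n : ℕ) (B : ℕ × ℕ → Prop) (v : ℕ × ℕ) : ZMod 2 :=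
  ind (Reach n B v)

/-- Indicator of label 2: white and joined to the bottom side. -/
noncomputable def c2 (n : ℕ) (B : ℕ × ℕ → Prop) (v : ℕ × ℕ) : ZMod 2 :=
  ind (Reach n (fun w => ¬ B w.swap) v.swap)

/-- Parity of `12`-edges. -/
noncomputable def ed (n : ℕ) (B : ℕ × ℕ → Prop) (u v : ℕ × ℕ) : ZMod 2 :=
  c1 n B u * c2 n B v + c2 n B u * c1 n B v

/-- If two vertices are adjacent, one with label 1 and the other one with label 2, then no vertex
adjacent to both has label 3. -/
lemma triangle {n : ℕ} {B : ℕ × ℕ → Prop} {a b c : ℕ × ℕ}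
    (hab : Adj a b) (hbc : Adj b c) (hac : Adj a c)
    (ha : a.1 ≤ n ∧ a.2 ≤ n) (hb : b.1 ≤ n ∧ b.2 ≤ n) (hc : c.1 ≤ n ∧ c.2 ≤ n) :
    ed n B a b + ed n B b c + ed n B a c = 0 := by
  -- each vertex: (black) or (white)
  have key : ∀ u v : ℕ × ℕ, Adj u v → (v.1 ≤ n ∧ v.2 ≤ n) → B v → Reach n B u → Reach n B v :=
    fun u v h hv hB hu => Reach.step u v hu h hv.1 hv.2 hB
  have key2 : ∀ u v : ℕ × ℕ, Adj u v → (v.1 ≤ n ∧ v.2 ≤ n) → ¬ B v →
      Reach n (fun w => ¬ B w.swap) u.swap → Reach n (fun w => ¬ B w.swap) v.swap :=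
    fun u v h hv hB hu => Reach.step u.swap v.swap hu h.swap hv.2 hv.1 (by simpa using hB)
  have k1 : ∀ v : ℕ × ℕ, Reach n B v → B v := fun v h => h.mem
  have k2 : ∀ v : ℕ × ℕ, Reach n (fun w => ¬ B w.swap) v.swap → ¬ B v := fun v h => by
    simpa using h.mem
  have hA := key a b hab hb
  have hA' := key b a hab.symm ha
  have hA2 := key2 a b hab hb
  have hA2' := key2 b a hab.symm ha
  have hB' := key b c hbc hc
  have hB'' := key c b hbc.symm hb
  have hB2 := key2 b c hbc hc
  have hB2' := key2 c b hbc.symm hb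
  have hC' := key a c hac hc
  have hC'' := key c a hac.symm ha
  have hC2 := key2 a c hac hc
  have hC2' := key2 c a hac.symm ha
  have a1 := k1 a; have b1 := k1 b; have c1' := k1 c
  have a2 := k2 a; have b2 := k2 b; have c2' := k2 c
  unfold ed c1 c2
  generalize Reach n B a = pa at *
  generalize Reach n B b = pb at *
  generalize Reach n B c = pc at *
  generalize Reach n (fun w => ¬ B w.swap) a.swap = qa at *
  generalize Reach n (fun w => ¬ B w.swap) b.swap = qb at *
  generalize Reach n (fun w => ¬ B w.swap) c.swap = qc at *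
  generalize B a = xa at *
  generalize B b = xb at *
  generalize B c = xc at *
  clear key key2 k1 k2
  by_cases pa <;> by_cases pb <;> by_cases pc <;> by_cases qa <;> by_cases qb <;> by_cases qc <;>
    by_cases xa <;> by_cases xb <;> by_cases xc <;> simp_all <;> decide

lemma sum_telescope_ZMod (g : ℕ → ZMod 2) (n : ℕ) :
    ∑ i ∈ Finset.range n, (g i + g (i + 1)) = g 0 + g n := by
  induction n with
  | zero => simp [CharTwo.add_self_eq_zero]
  | succ n ih =>
    rw [Finset.sum_range_succ, ih]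
    have : g n + g n = 0 := CharTwo.add_self_eq_zero _
    linear_combination this

lemma ed_symm (n : ℕ) (B : ℕ × ℕ → Prop) (u v : ℕ × ℕ) : ed n B u v = ed n B v u := by
  unfold ed; ring

/-- The discrete duality: either the black vertices contain a left-right crossing, or the white
vertices contain a bottom-top crossing. -/
theorem hex (n : ℕ) (B : ℕ × ℕ → Prop) :
    GridCross n B ∨ GridCross n (fun v => ¬ B v.swap) := by
  classical
  by_contra hcon
  push Not at hcon
  obtain ⟨h1, h2⟩ := hcon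
  have hc1 : ∀ j, j ≤ n → c1 n B (n, j) = 0 := by
    intro j hj
    exact ind_of_not fun h => h1 ⟨j, hj, h⟩
  have hc2 : ∀ i, i ≤ n → c2 n B (i, n) = 0 := by
    intro i hi
    exact ind_of_not fun h => h2 ⟨i, hi, h⟩
  -- sum over a cell
  have cell : ∀ i j, i < n → j < n →
      ed n B (i, j) (i + 1, j) + ed n B (i, j) (i, j + 1) +
        (ed n B (i, j + 1) (i + 1, j + 1) + ed n B (i + 1, j) (i + 1, j + 1)) = 0 := by
    intro i j hi hj
    have t1 := triangle (n := n) (B := B) (a := (i, j)) (b := (i + 1, j)) (c := (i, j + 1))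
      (by unfold Adj; simp) (by unfold Adj; simp) (by unfold Adj; simp)
      ⟨by simp; omega, by simp; omega⟩ ⟨by simp; omega, by simp; omega⟩
      ⟨by simp; omega, by simp; omega⟩
    have t2 := triangle (n := n) (B := B) (a := (i + 1, j)) (b := (i, j + 1)) (c := (i + 1, j + 1))
      (by unfold Adj; simp) (by unfold Adj; simp) (by unfold Adj; simp)
      ⟨by simp; omega, by simp; omega⟩ ⟨by simp; omega, by simp; omega⟩
      ⟨by simp; omega, by simp; omega⟩
    have h2x : (2 : ZMod 2) = 0 := by decide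
    linear_combination t1 + t2 - h2x * ed n B (i + 1, j) (i, j + 1)
  have total : ∑ i ∈ Finset.range n, ∑ j ∈ Finset.range n,
      (ed n B (i, j) (i + 1, j) + ed n B (i, j) (i, j + 1) +
        (ed n B (i, j + 1) (i + 1, j + 1) + ed n B (i + 1, j) (i + 1, j + 1))) = 0 := by
    apply Finset.sum_eq_zero
    intro i hi
    apply Finset.sum_eq_zero
    intro j hj
    exact cell i j (Finset.mem_range.1 hi) (Finset.mem_range.1 hj)
  have hH : ∑ i ∈ Finset.range n, ∑ j ∈ Finset.range n,
      (ed n B (i, j) (i + 1, j) + ed n B (i, j + 1) (i + 1, j + 1)) =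
      ∑ i ∈ Finset.range n, ed n B (i, 0) (i + 1, 0) := by
    apply Finset.sum_congr rfl
    intro i hi
    rw [sum_telescope_ZMod (fun j => ed n B (i, j) (i + 1, j)) n]
    have : ed n B (i, n) (i + 1, n) = 0 := by
      unfold ed
      rw [hc2 i (Finset.mem_range.1 hi).le, hc2 (i + 1) (Finset.mem_range.1 hi)]
      ring
    simp only [this, add_zero]
  have hV : ∑ i ∈ Finset.range n, ∑ j ∈ Finset.range n,
      (ed n B (i, j) (i, j + 1) + ed n B (i + 1, j) (i + 1, j + 1)) =
      ∑ j ∈ Finset.range n, ed n B (0, j) (0, j + 1) := by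
    rw [Finset.sum_comm]
    apply Finset.sum_congr rfl
    intro j hj
    rw [sum_telescope_ZMod (fun i => ed n B (i, j) (i, j + 1)) n]
    have : ed n B (n, j) (n, j + 1) = 0 := by
      unfold ed
      rw [hc1 j (Finset.mem_range.1 hj).le, hc1 (j + 1) (Finset.mem_range.1 hj)]
      ring
    simp only [this, add_zero]
  have htot : ∑ i ∈ Finset.range n, ed n B (i, 0) (i + 1, 0) +
      ∑ j ∈ Finset.range n, ed n B (0, j) (0, j + 1) = 0 := by
    rw [← hH, ← hV, ← total, ← Finset.sum_add_distrib]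
    apply Finset.sum_congr rfl
    intro i _
    rw [← Finset.sum_add_distrib]
    apply Finset.sum_congr rfl
    intro j _
    ring
  have hbotE : ∀ i, i < n → ed n B (i, 0) (i + 1, 0) = c1 n B (i, 0) + c1 n B (i + 1, 0) := by
    intro i hi
    have w : ∀ i, i ≤ n → (¬ B (i, 0) ↔ Reach n (fun w => ¬ B w.swap) (0, i)) := by
      intro i hi
      constructor
      · intro h
        exact Reach.start i hi (by simpa using h)
      · intro h
        simpa using h.mem
    have wi := w i hi.le
    have wi' := w (i + 1) hi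
    have s1 : Reach n B (i, 0) → B (i + 1, 0) → Reach n B (i + 1, 0) := fun h hB =>
      Reach.step (i, 0) (i + 1, 0) h (by unfold Adj; simp) hi (Nat.zero_le _) hB
    have s2 : Reach n B (i + 1, 0) → B (i, 0) → Reach n B (i, 0) := fun h hB =>
      Reach.step (i + 1, 0) (i, 0) h (by unfold Adj; simp) hi.le (Nat.zero_le _) hB
    have m1 : Reach n B (i, 0) → B (i, 0) := fun h => h.mem
    have m2 : Reach n B (i + 1, 0) → B (i + 1, 0) := fun h => h.mem
    unfold ed c1 c2
    simp only [Prod.swap_prod_mk]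
    generalize Reach n B (i, 0) = pa at *
    generalize Reach n B (i + 1, 0) = pb at *
    generalize Reach n (fun w => ¬ B w.swap) (0, i) = qa at *
    generalize Reach n (fun w => ¬ B w.swap) (0, i + 1) = qb at *
    generalize B (i, 0) = xa at *
    generalize B (i + 1, 0) = xb at *
    clear htot hV hH total cell hc1 hc2 h1 h2 w
    by_cases pa <;> by_cases pb <;> by_cases qa <;> by_cases qb <;>
      by_cases xa <;> by_cases xb <;> simp_all <;> decide
  have hleftE : ∀ j, j < n → ed n B (0, j) (0, j + 1) = c2 n B (0, j) + c2 n B (0, j + 1) := by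
    intro i hi
    have w : ∀ i, i ≤ n → (B (0, i) ↔ Reach n B (0, i)) := by
      intro i hi
      constructor
      · intro h
        exact Reach.start i hi h
      · intro h
        exact h.mem
    have wi := w i hi.le
    have wi' := w (i + 1) hi
    have s1 : Reach n (fun w => ¬ B w.swap) (i, 0) → ¬ B (0, i + 1) →
        Reach n (fun w => ¬ B w.swap) (i + 1, 0) := fun h hB =>
      Reach.step (i, 0) (i + 1, 0) h (by unfold Adj; simp) hi (Nat.zero_le _) (by simpa using hB)
    have s2 : Reach n (fun w => ¬ B w.swap) (i + 1, 0) → ¬ B (0, i) →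
        Reach n (fun w => ¬ B w.swap) (i, 0) := fun h hB =>
      Reach.step (i + 1, 0) (i, 0) h (by unfold Adj; simp) hi.le (Nat.zero_le _)
        (by simpa using hB)
    have m1 : Reach n (fun w => ¬ B w.swap) (i, 0) → ¬ B (0, i) := fun h => by
      simpa using h.mem
    have m2 : Reach n (fun w => ¬ B w.swap) (i + 1, 0) → ¬ B (0, i + 1) := fun h => by
      simpa using h.mem
    unfold ed c1 c2
    simp only [Prod.swap_prod_mk]
    generalize Reach n B (0, i) = pa at *
    generalize Reach n B (0, i + 1) = pb at *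
    generalize Reach n (fun w => ¬ B w.swap) (i, 0) = qa at *
    generalize Reach n (fun w => ¬ B w.swap) (i + 1, 0) = qb at *
    generalize B (0, i) = xa at *
    generalize B (0, i + 1) = xb at *
    clear htot hV hH total cell hc1 hc2 h1 h2 w hbotE
    by_cases pa <;> by_cases pb <;> by_cases qa <;> by_cases qb <;>
      by_cases xa <;> by_cases xb <;> simp_all <;> decide
  have e1 : ∑ i ∈ Finset.range n, ed n B (i, 0) (i + 1, 0) = c1 n B (0, 0) := by
    rw [Finset.sum_congr rfl (fun i hi => hbotE i (Finset.mem_range.1 hi)),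
      sum_telescope_ZMod (fun i => c1 n B (i, 0)) n, hc1 0 (Nat.zero_le _), add_zero]
  have e2 : ∑ j ∈ Finset.range n, ed n B (0, j) (0, j + 1) = c2 n B (0, 0) := by
    rw [Finset.sum_congr rfl (fun i hi => hleftE i (Finset.mem_range.1 hi)),
      sum_telescope_ZMod (fun i => c2 n B (0, i)) n, hc2 0 (Nat.zero_le _), add_zero]
  rw [e1, e2] at htot
  by_cases hB : B (0, 0)
  · have r1 : Reach n B (0, 0) := Reach.start 0 (Nat.zero_le _) hB
    have r2 : ¬ Reach n (fun w => ¬ B w.swap) (0, 0) := fun h => by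
      have := h.mem
      simp only [Prod.swap_prod_mk] at this
      exact this hB
    unfold c1 c2 at htot
    simp [r1, r2] at htot
  · have r1 : ¬ Reach n B (0, 0) := fun h => hB h.mem
    have r2 : Reach n (fun w => ¬ B w.swap) (0, 0) := Reach.start 0 (Nat.zero_le _)
      (by simpa using hB)
    unfold c1 c2 at htot
    simp [r1, r2] at htot

end GFPerc
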