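import Mathlib

/-!
# A shift inequality for monotone events of Gaussian vectors
-/

open MeasureTheory ProbabilityTheory
open scoped ENNReal NNReal

namespace GFPerc

variable {Ω : Type*} {mΩ : MeasurableSpace Ω} {P : Measure Ω}

/-- Two centred Gaussian vectors with the same covariances have the same law. -/
lemma gaussian_map_eq {ι : Type*} [Fintype ι] {F G : ι → Ω → ℝ}
    (hF : HasGaussianLaw (fun ω i => F i ω) P) (hG : HasGaussianLaw (fun ω i => G i ω) P)
    (hF0 : ∀ i, ∫ ω, F i ω ∂P = 0) (hG0 : ∀ i, ∫ ω, G i ω ∂P = 0)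
    (hcov : ∀ i j, covariance (F i) (F j) P = covariance (G i) (G j) P) :
    P.map (fun ω i => F i ω) = P.map (fun ω i => G i ω) := by
  classical
  have hP : IsProbabilityMeasure P := hF.isProbabilityMeasure
  have h1 := hF.isGaussian_map
  have h2 := hG.isGaussian_map
  have key : ∀ (H : ι → Ω → ℝ), HasGaussianLaw (fun ω i => H i ω) P →
      (∀ i, ∫ ω, H i ω ∂P = 0) → ∀ L : StrongDual ℝ (ι → ℝ),
      (∫ ω, L (fun i => H i ω) ∂P = 0) ∧
      Var[fun ω => L (fun i => H i ω); P] =
        ∑ i, ∑ j, L (Pi.single i 1) * (L (Pi.single j 1) * covariance (H i) (H j) P) := by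
    intro H hH hH0 L
    have hexp : ∀ ω, L (fun i => H i ω) = ∑ i, L (Pi.single i 1) * H i ω := by
      intro ω
      have : (fun i => H i ω) = ∑ i, H i ω • (Pi.single i (1 : ℝ) : ι → ℝ) := by
        ext j
        simp [Finset.sum_apply, Pi.single_apply]
      rw [this, map_sum]
      apply Finset.sum_congr rfl
      intro i _
      rw [map_smul, smul_eq_mul, mul_comm]
    have hint : ∀ i, Integrable (H i) P := fun i => (hH.eval i).integrable
    have hL2 : ∀ i, MemLp (H i) 2 P := fun i => (hH.eval i).memLp_two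
    have hfun : (fun ω => L (fun i => H i ω)) = fun ω => ∑ i, L (Pi.single i 1) * H i ω := by
      funext ω; exact hexp ω
    constructor
    · rw [hfun, integral_finsetSum _ (fun i _ => (hint i).const_mul _)]
      apply Finset.sum_eq_zero
      intro i _
      rw [integral_const_mul, hH0 i, mul_zero]
    · rw [hfun, ← covariance_self, covariance_fun_sum_fun_sum]
      · apply Finset.sum_congr rfl; intro i _
        apply Finset.sum_congr rfl; intro j _
        rw [covariance_const_mul_left, covariance_const_mul_right]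
      · intro i; exact (hL2 i).const_mul _
      · intro i; exact (hL2 i).const_mul _
      · apply Finset.aemeasurable_fun_sum
        intro i _
        exact (hint i).aemeasurable.const_mul _
  apply Measure.ext_of_charFunDual
  funext L
  rw [hF.charFunDual_map_eq_fun, hG.charFunDual_map_eq_fun, (key F hF hF0 L).1,
    (key G hG hG0 L).1, (key F hF hF0 L).2, (key G hG hG0 L).2]
  simp only [hcov]

/-- A set of reals of diameter at most `c` has small Gaussian measure. -/
lemma gaussianReal_le_diam (v : ℝ≥0) (hv : v ≠ 0) (m : ℝ) (S : Set ℝ) (c : ℝ)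
    (hS : ∀ x ∈ S, ∀ y ∈ S, x ≤ y → y - x ≤ c) :
    gaussianReal m v S ≤ ENNReal.ofReal (c * (Real.sqrt (2 * Real.pi * v))⁻¹) := by
  rw [gaussianReal_apply m hv S]
  have hvol : volume S ≤ ENNReal.ofReal c := by
    refine (Real.volume_le_diam S).trans ?_
    apply Metric.ediam_le
    intro x hx y hy
    rw [edist_dist]
    apply ENNReal.ofReal_le_ofReal
    rw [Real.dist_eq]
    rcases le_total x y with h | h
    · rw [abs_sub_comm, abs_of_nonneg (by linarith)]
      exact hS x hx y hy h
    · rw [abs_of_nonneg (by linarith)]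
      exact hS y hy x hx h
  have hpdf : ∀ x, gaussianPDF m v x ≤ ENNReal.ofReal (Real.sqrt (2 * Real.pi * v))⁻¹ := by
    intro x
    unfold gaussianPDF gaussianPDFReal
    apply ENNReal.ofReal_le_ofReal
    have h0 : 0 ≤ (Real.sqrt (2 * Real.pi * v))⁻¹ := by positivity
    have h1 : Real.exp (-(x - m) ^ 2 / (2 * v)) ≤ 1 := by
      apply Real.exp_le_one_iff.2
      apply div_nonpos_of_nonpos_of_nonneg
      · have := sq_nonneg (x - m); linarith
      · positivity
    nlinarith
  calc ∫⁻ x in S, gaussianPDF m v x ≤ ∫⁻ x in S, ENNReal.ofReal (Real.sqrt (2 * Real.pi * v))⁻¹ :=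
        lintegral_mono fun x => hpdf x
    _ = ENNReal.ofReal (Real.sqrt (2 * Real.pi * v))⁻¹ * volume S := by
        rw [lintegral_const, Measure.restrict_apply_univ]
    _ ≤ ENNReal.ofReal (Real.sqrt (2 * Real.pi * v))⁻¹ * ENNReal.ofReal c := by gcongr
    _ = ENNReal.ofReal (c * (Real.sqrt (2 * Real.pi * v))⁻¹) := by
        rw [← ENNReal.ofReal_mul (by positivity), mul_comm]

/-- **Shift inequality.** Let `(F, Z)` be a centred Gaussian vector with `Cov(F i, Z) ≥ q > 0` for
all `i`, and let `T` be a measurable lower set.  Then lowering the level by `d` costs at most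
`d √Var Z / (q √(2π))` in probability. -/
theorem shift_le {ι : Type*} [Fintype ι] {F : ι → Ω → ℝ} {Z : Ω → ℝ}
    (hFZ : HasGaussianLaw (fun ω => ((fun i => F i ω), Z ω)) P)
    (hZ0 : ∫ ω, Z ω ∂P = 0)
    {v : ℝ} (hv : 0 < v) (hvar : covariance Z Z P = v) {q : ℝ} (hq : 0 < q)
    (hcov : ∀ i, q ≤ covariance (F i) Z P)
    {T : Set (ι → ℝ)} (hT : MeasurableSet T) (hlow : IsLowerSet T) {d : ℝ} (hd : 0 ≤ d) :
    P {ω | (fun i => F i ω) ∈ T} ≤ P {ω | (fun i => F i ω + d) ∈ T} +
      ENNReal.ofReal (d * Real.sqrt v / (q * Real.sqrt (2 * Real.pi))) := by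
  classical
  have hP : IsProbabilityMeasure P := hFZ.isProbabilityMeasure
  have hFlaw : HasGaussianLaw (fun ω i => F i ω) P := hFZ.fst
  have hZlaw : HasGaussianLaw Z P := hFZ.snd
  have hFi : ∀ i, HasGaussianLaw (F i) P := fun i => hFlaw.eval i
  have hF2 : ∀ i, MemLp (F i) 2 P := fun i => (hFi i).memLp_two
  have hZ2 : MemLp Z 2 P := hZlaw.memLp_two
  set ρ : ι → ℝ := fun i => covariance (F i) Z P / v with hρ
  have hρpos : ∀ i, 0 < ρ i := fun i => div_pos (lt_of_lt_of_le hq (hcov i)) hv
  set W : ι → Ω → ℝ := fun i ω => F i ω - ρ i * Z ω with hW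
  -- joint law of (W, Z)
  have hWZ : HasGaussianLaw (fun ω => ((fun i => W i ω), (fun _ : Unit => Z ω))) P := by
    let L : ((ι → ℝ) × ℝ) →L[ℝ] ((ι → ℝ) × (Unit → ℝ)) :=
      LinearMap.toContinuousLinearMap
      { toFun := fun p => ((fun i => p.1 i - ρ i * p.2), fun _ => p.2)
        map_add' := by
          intro x y
          ext i
          · simp; ring
          · simp
        map_smul' := by
          intro c x
          ext i
          · simp; ring
          · simp }
    exact hFZ.map_fun L
  have hindep : IndepFun (fun ω i => W i ω) (fun ω (_ : Unit) => Z ω) P := by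
    apply HasGaussianLaw.indepFun_of_covariance_eval (X := W) (Y := fun _ : Unit => Z) hWZ
    intro i _
    show covariance (fun ω => F i ω - ρ i * Z ω) Z P = 0
    rw [covariance_fun_sub_left (hF2 i) (hZ2.const_mul _) hZ2, covariance_const_mul_left, hvar, hρ]
    field_simp
    ring
  have hindep' : IndepFun (fun ω i => W i ω) Z P := by
    have hm : Measurable (fun x : Unit → ℝ => x ()) := by fun_prop
    exact hindep.comp (φ := id) (ψ := fun x : Unit → ℝ => x ()) measurable_id hm
  have hWm : AEMeasurable (fun ω i => W i ω) P := by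
    have := hWZ.fst
    exact this.aemeasurable
  have hZm : AEMeasurable Z P := hZlaw.aemeasurable
  have hprod := (indepFun_iff_map_prod_eq_prod_map_map hWm hZm).1 hindep'
  -- law of Z
  have hZmap : P.map Z = gaussianReal 0 v.toNNReal := by
    rw [hZlaw.map_eq_gaussianReal, hZ0, ← covariance_self hZm, hvar]
  have hv' : v.toNNReal ≠ 0 := by
    simp only [ne_eq, Real.toNNReal_eq_zero, not_le]; exact hv
  set S : Set ((ι → ℝ) × ℝ) :=
    {p | (fun i => p.1 i + ρ i * p.2) ∈ T ∧ (fun i => p.1 i + ρ i * p.2 + d) ∉ T} with hSdef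
  have hSm : MeasurableSet S := by
    apply MeasurableSet.inter
    · exact (measurable_pi_lambda _ fun i => ((measurable_pi_apply i).comp measurable_fst).add
        (measurable_snd.const_mul _)) hT
    · apply MeasurableSet.compl
      exact (measurable_pi_lambda _ fun i => (((measurable_pi_apply i).comp measurable_fst).add
        (measurable_snd.const_mul _)).add_const _) hT
  have hsub : {ω | (fun i => F i ω) ∈ T} ⊆ {ω | (fun i => F i ω + d) ∈ T} ∪
      (fun ω => ((fun i => W i ω), Z ω)) ⁻¹' S := by
    intro ω hω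
    by_cases h : (fun i => F i ω + d) ∈ T
    · exact Or.inl h
    · right
      show _ ∧ _
      have e : ∀ i, W i ω + ρ i * Z ω = F i ω := fun i => by simp only [hW]; ring
      simp only [e]
      exact ⟨hω, h⟩
  refine (measure_mono hsub).trans ((measure_union_le _ _).trans ?_)
  gcongr
  have hSP : P ((fun ω => ((fun i => W i ω), Z ω)) ⁻¹' S) =
      ((P.map (fun ω i => W i ω)).prod (P.map Z)) S := by
    rw [← hprod, Measure.map_apply_of_aemeasurable (hWm.prodMk hZm) hSm]
  rw [hSP, Measure.prod_apply hSm]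
  have hWprob : IsProbabilityMeasure (P.map (fun ω i => W i ω)) :=
    Measure.isProbabilityMeasure_map hWm
  have hbound : ∀ w : ι → ℝ, P.map Z (Prod.mk w ⁻¹' S) ≤
      ENNReal.ofReal (d * Real.sqrt v / (q * Real.sqrt (2 * Real.pi))) := by
    intro w
    rw [hZmap]
    refine (gaussianReal_le_diam v.toNNReal hv' 0 (Prod.mk w ⁻¹' S) (d * v / q) ?_).trans ?_
    · intro x hx y hy hxy
      by_contra hlt
      push Not at hlt
      apply hx.2
      refine hlow ?_ hy.1
      intro i
      simp only
      have h1 : d ≤ ρ i * (y - x) := by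
        have hρi : q / v ≤ ρ i := by
          simp only [hρ]
          gcongr
          exact hcov i
        calc d = q / v * (d * v / q) := by field_simp
          _ ≤ ρ i * (y - x) := by
            apply mul_le_mul hρi hlt.le (by positivity) (hρpos i).le
      nlinarith
    · apply ENNReal.ofReal_le_ofReal
      rw [Real.coe_toNNReal v hv.le, Real.sqrt_mul (by positivity : (0:ℝ) ≤ 2 * Real.pi)]
      have hs : Real.sqrt v * Real.sqrt v = v := Real.mul_self_sqrt hv.le
      have hsv : 0 < Real.sqrt v := Real.sqrt_pos.2 hv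
      have hsp : 0 < Real.sqrt (2 * Real.pi) := Real.sqrt_pos.2 (by positivity)
      apply le_of_eq
      rw [mul_inv]
      field_simp
      rw [sq, hs]
  calc ∫⁻ w, P.map Z (Prod.mk w ⁻¹' S) ∂(P.map (fun ω i => W i ω))
      ≤ ∫⁻ _, ENNReal.ofReal (d * Real.sqrt v / (q * Real.sqrt (2 * Real.pi)))
        ∂(P.map (fun ω i => W i ω)) := lintegral_mono hbound
    _ = _ := by rw [lintegral_const, measure_univ, mul_one]

end GFPerc
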