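import Mathlib
import Pool.Agent.LibGFPerc.Defs
import Pool.Agent.LibGFPerc.Hex
import Pool.Agent.LibGFPerc.Shift

/-!
# Grid crossing events of a planar Gaussian field
-/

open MeasureTheory ProbabilityTheory
open scoped ENNReal NNReal

namespace GFPerc

variable {Ω : Type*} {mΩ : MeasurableSpace Ω} {P : Measure Ω}

lemma gaussian_pair_law {T ι J : Type*} [Fintype ι] [Fintype J] {f : T → Ω → ℝ}
    (hf : IsGaussianProcess f P) (p : ι → T) (q : J → T) :
    HasGaussianLaw (fun ω => ((fun i => f (p i) ω), ∑ j, f (q j) ω)) P := by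
  classical
  have h1 := hf.comp_right (Sum.elim p q)
  have h2 := h1.hasGaussianLaw Finset.univ
  let L : ({x // x ∈ (Finset.univ : Finset (ι ⊕ J))} → ℝ) →L[ℝ] ((ι → ℝ) × ℝ) :=
    LinearMap.toContinuousLinearMap
    { toFun := fun x => ((fun i => x ⟨Sum.inl i, Finset.mem_univ _⟩),
        ∑ j, x ⟨Sum.inr j, Finset.mem_univ _⟩)
      map_add' := by
        intro x y
        ext i
        · simp
        · simp [Finset.sum_add_distrib]
      map_smul' := by
        intro c x
        ext i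
        · simp
        · simp [Finset.mul_sum] }
  have h3 := h2.map_fun L
  exact h3

lemma gaussian_vec_law {T ι : Type*} [Fintype ι] {f : T → Ω → ℝ}
    (hf : IsGaussianProcess f P) (p : ι → T) :
    HasGaussianLaw (fun ω i => f (p i) ω) P :=
  (gaussian_pair_law hf p (fun j : Fin 0 => p (Fin.elim0 j))).fst

/-- Grid points of the square `[0, R]²` with mesh `R / n`. -/
noncomputable def gp (R : ℝ) (n : ℕ) (v : ℕ × ℕ) : E2 := !₂[v.1 * (R / n), v.2 * (R / n)]

@[simp] lemma gp_zero (R : ℝ) (n : ℕ) (v : ℕ × ℕ) : gp R n v 0 = v.1 * (R / n) := rfl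
@[simp] lemma gp_one (R : ℝ) (n : ℕ) (v : ℕ × ℕ) : gp R n v 1 = v.2 * (R / n) := rfl

/-- Index map. -/
def emb (n : ℕ) (v : ℕ × ℕ) : Fin (n + 1) × Fin (n + 1) :=
  (Fin.ofNat (n + 1) v.1, Fin.ofNat (n + 1) v.2)

/-- Back. -/
def bk (n : ℕ) (v : Fin (n + 1) × Fin (n + 1)) : ℕ × ℕ := (v.1, v.2)

lemma bk_emb {n : ℕ} {v : ℕ × ℕ} (h1 : v.1 ≤ n) (h2 : v.2 ≤ n) : bk n (emb n v) = v := by
  unfold bk emb
  ext
  · simp [Fin.ofNat, Nat.mod_eq_of_lt (Nat.lt_succ_of_le h1)]
  · simp [Fin.ofNat, Nat.mod_eq_of_lt (Nat.lt_succ_of_le h2)]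

/-- The vectors on the grid for which `{x ≤ 0}` crosses. -/
def TT (n : ℕ) : Set (Fin (n + 1) × Fin (n + 1) → ℝ) :=
  {x | GridCross n (fun v => x (emb n v) ≤ 0)}

lemma TT_lower (n : ℕ) : IsLowerSet (TT n) := by
  intro x y hxy hx
  exact hx.mono fun v _ _ h => (hxy _).trans h

lemma TT_meas (n : ℕ) : MeasurableSet (TT n) := by
  classical
  let g : (Fin (n + 1) × Fin (n + 1) → ℝ) → (Fin (n + 1) × Fin (n + 1) → Bool) :=
    fun x v => decide (x v ≤ 0)
  have hg : Measurable g := by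
    apply measurable_pi_lambda
    intro v
    apply measurable_to_bool
    have : (fun x : Fin (n + 1) × Fin (n + 1) → ℝ => decide (x v ≤ 0)) ⁻¹' {true} =
        (fun x => x v) ⁻¹' (Set.Iic 0) := by
      ext x; simp
    rw [this]
    exact measurableSet_Iic.preimage (measurable_pi_apply v)
  have : TT n = g ⁻¹' {b | GridCross n (fun v => b (emb n v) = true)} := by
    ext x
    simp only [TT, g, Set.mem_preimage, Set.mem_ofPred_eq, decide_eq_true_eq]
  rw [this]
  exact hg (MeasurableSet.of_discrete)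

variable {f : E2 → Ω → ℝ} {κ : ℝ → ℝ}

lemma norm_gp_swap (R : ℝ) (n : ℕ) (u v : ℕ × ℕ) :
    ‖gp R n u.swap - gp R n v.swap‖ = ‖gp R n u - gp R n v‖ := by
  rw [EuclideanSpace.norm_eq, EuclideanSpace.norm_eq]
  congr 1
  rw [Fin.sum_univ_two, Fin.sum_univ_two]
  simp only [PiLp.sub_apply, gp_zero, gp_one, Prod.fst_swap, Prod.snd_swap]
  ring

/-- At the level `0` the grid crossing has probability at least `1/2`. -/
theorem half_le (hf : IsPlanarField P f κ) (R : ℝ) (n : ℕ) :
    (1 / 2 : ENNReal) ≤ P {ω | (fun v => f (gp R n (bk n v)) ω) ∈ TT n} := by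
  have hP : IsProbabilityMeasure P := hf.gaussian.isProbabilityMeasure
  set F : Fin (n + 1) × Fin (n + 1) → Ω → ℝ := fun v => f (gp R n (bk n v)) with hF
  set G : Fin (n + 1) × Fin (n + 1) → Ω → ℝ := fun v ω => -f (gp R n (bk n v.swap)) ω with hG
  have hFlaw : HasGaussianLaw (fun ω i => F i ω) P := gaussian_vec_law hf.gaussian _
  have hGlaw : HasGaussianLaw (fun ω i => G i ω) P :=
    (gaussian_vec_law hf.gaussian
      (fun v : Fin (n + 1) × Fin (n + 1) => gp R n (bk n v.swap))).fun_neg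
  have hmap : P.map (fun ω i => F i ω) = P.map (fun ω i => G i ω) := by
    apply gaussian_map_eq hFlaw hGlaw
    · intro i; exact hf.centred _
    · intro i
      simp only [hG]
      rw [integral_neg, hf.centred, neg_zero]
    · intro i j
      simp only [hG, hF]
      rw [covariance_fun_neg_left, covariance_fun_neg_right, neg_neg, hf.cov_eq, hf.cov_eq]
      congr 1
      exact (norm_gp_swap R n (bk n i) (bk n j)).symm
  have hPF : P {ω | (fun v => F v ω) ∈ TT n} = P.map (fun ω i => F i ω) (TT n) :=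
    (Measure.map_apply_of_aemeasurable hFlaw.aemeasurable (TT_meas n)).symm
  have hPG : P {ω | (fun v => G v ω) ∈ TT n} = P.map (fun ω i => G i ω) (TT n) :=
    (Measure.map_apply_of_aemeasurable hGlaw.aemeasurable (TT_meas n)).symm
  have hcover : (Set.univ : Set Ω) ⊆ {ω | (fun v => F v ω) ∈ TT n} ∪
      {ω | (fun v => G v ω) ∈ TT n} := by
    intro ω _
    rcases hex n (fun v => F (emb n v) ω ≤ 0) with h | h
    · exact Or.inl h
    · right
      refine h.mono ?_
      intro v h1 h2 hv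
      simp only [not_le] at hv
      simp only [hG]
      have e : (emb n v).swap = emb n v.swap := rfl
      rw [e]
      simp only [hF] at hv
      linarith
  have h1 : (1 : ENNReal) ≤ P {ω | (fun v => F v ω) ∈ TT n} + P {ω | (fun v => F v ω) ∈ TT n} := by
    calc (1 : ENNReal) = P Set.univ := measure_univ.symm
      _ ≤ _ := measure_mono hcover
      _ ≤ _ := measure_union_le _ _
      _ = _ := by rw [hPG, ← hmap, ← hPF]
  rw [ENNReal.div_le_iff (by norm_num) (by norm_num), mul_two]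
  exact h1

/-- Lattice points. -/
noncomputable def lp (v : ℕ × ℕ) : E2 := !₂[(v.1 : ℝ), (v.2 : ℝ)]

@[simp] lemma lp_zero (v : ℕ × ℕ) : lp v 0 = v.1 := rfl
@[simp] lemma lp_one (v : ℕ × ℕ) : lp v 1 = v.2 := rfl

/-- The sum of the covariance kernel over the lattice points of `{0, …, m-1}²`. -/
noncomputable def ksum (κ : ℝ → ℝ) (m : ℕ) (x : E2) : ℝ :=
  ∑ y : Fin m × Fin m, κ ‖x - lp (y.1, y.2)‖

/-- The lattice sum of the field. -/
noncomputable def ZZ (f : E2 → Ω → ℝ) (m : ℕ) (ω : Ω) : ℝ :=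
  ∑ y : Fin m × Fin m, f (lp (y.1, y.2)) ω

lemma cov_ZZ (hf : IsPlanarField P f κ) (m : ℕ) (x : E2) :
    covariance (f x) (ZZ f m) P = ksum κ m x := by
  have hP : IsProbabilityMeasure P := hf.gaussian.isProbabilityMeasure
  unfold ZZ ksum
  have h2 : ∀ x, MemLp (f x) 2 P := fun x => (hf.gaussian.hasGaussianLaw_eval x).memLp_two
  have e : (fun ω => ∑ y : Fin m × Fin m, f (lp (y.1, y.2)) ω) =
    fun ω => ∑ y : Fin m × Fin m, (fun (y : Fin m × Fin m) ω => f (lp (y.1, y.2)) ω) y ω := rfl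
  show covariance (f x) (fun ω => ∑ y : Fin m × Fin m, f (lp (y.1, y.2)) ω) P = _
  rw [covariance_fun_sum_right (fun y => h2 _) (h2 x)]
  exact Finset.sum_congr rfl fun y _ => hf.cov_eq _ _

lemma cov_ZZ_ZZ (hf : IsPlanarField P f κ) (m : ℕ) :
    covariance (ZZ f m) (ZZ f m) P = ∑ y : Fin m × Fin m, ksum κ m (lp (y.1, y.2)) := by
  have hP : IsProbabilityMeasure P := hf.gaussian.isProbabilityMeasure
  have h2 : ∀ x, MemLp (f x) 2 P := fun x => (hf.gaussian.hasGaussianLaw_eval x).memLp_two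
  have hZ : MemLp (ZZ f m) 2 P := by
    have := memLp_finsetSum (p := 2) (μ := P) (Finset.univ : Finset (Fin m × Fin m))
      (f := fun y ω => f (lp (y.1, y.2)) ω) (fun y _ => h2 _)
    exact this
  have : covariance (ZZ f m) (ZZ f m) P =
      covariance (fun ω => ∑ y : Fin m × Fin m, f (lp (y.1, y.2)) ω) (ZZ f m) P := rfl
  rw [this, covariance_fun_sum_left (fun y => h2 _) hZ]
  exact Finset.sum_congr rfl fun y _ => cov_ZZ hf m _

/-- Grid crossings at a negative level. -/
theorem grid_le (hf : IsPlanarField P f κ) (R : ℝ) (n m : ℕ) {q V : ℝ} (hq : 0 < q)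
    (hR : ∀ v : ℕ × ℕ, v.1 ≤ n → v.2 ≤ n → q ≤ ksum κ m (gp R n v))
    (hV : ∑ y : Fin m × Fin m, ksum κ m (lp (y.1, y.2)) ≤ V)
    (hV0 : 0 < ∑ y : Fin m × Fin m, ksum κ m (lp (y.1, y.2)))
    {d : ℝ} (hd : 0 ≤ d) :
    (1 / 2 : ENNReal) ≤ P {ω | GridCross n (fun v => f (gp R n v) ω ≤ -d)} +
      ENNReal.ofReal (d * Real.sqrt V / (q * Real.sqrt (2 * Real.pi))) := by
  have hP : IsProbabilityMeasure P := hf.gaussian.isProbabilityMeasure
  have hlaw := gaussian_pair_law hf.gaussian (fun v => gp R n (bk n v))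
    (fun y : Fin m × Fin m => lp (y.1, y.2))
  have h0 : ∫ ω, ZZ f m ω ∂P = 0 := by
    unfold ZZ
    rw [integral_finsetSum _ (fun y _ => (hf.gaussian.hasGaussianLaw_eval _).integrable)]
    exact Finset.sum_eq_zero fun y _ => hf.centred _
  have key := shift_le (F := fun v => f (gp R n (bk n v))) (Z := ZZ f m) hlaw h0 hV0
    (cov_ZZ_ZZ hf m) hq (T := TT n)
    (fun i => by
      rw [cov_ZZ hf]
      exact hR _ (Nat.lt_succ_iff.1 i.1.2) (Nat.lt_succ_iff.1 i.2.2)) (TT_meas n) (TT_lower n) hd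
  refine (half_le hf R n).trans (key.trans ?_)
  have hsub : {ω | (fun i => f (gp R n (bk n i)) ω + d) ∈ TT n} ⊆
      {ω | GridCross n (fun v => f (gp R n v) ω ≤ -d)} := by
    intro ω hω
    have hω' : GridCross n (fun v => f (gp R n (bk n (emb n v))) ω + d ≤ 0) := hω
    refine hω'.mono ?_
    intro v h1 h2 hv
    rw [bk_emb h1 h2] at hv
    linarith
  gcongr

end GFPerc
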