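import Mathlib
import Pool.Agent.LibGFPerc.Grid

/-!
# From grid crossings to continuous crossings
-/

open MeasureTheory ProbabilityTheory
open scoped ENNReal NNReal

namespace GFPerc

lemma box_convex (R : ℝ) : Convex ℝ (box R) := by
  intro x hx y hy a b ha hb hab i
  have h1 := hx i
  have h2 := hy i
  simp only [PiLp.add_apply, PiLp.smul_apply, smul_eq_mul]
  constructor
  · have := mul_nonneg ha h1.1
    have := mul_nonneg hb h2.1
    linarith
  · have := mul_le_mul_of_nonneg_left h1.2 ha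
    have := mul_le_mul_of_nonneg_left h2.2 hb
    have e : a * R + b * R = R := by rw [← add_mul, hab, one_mul]
    linarith

lemma box_compact (R : ℝ) : IsCompact (box R) := by
  have hcl : IsClosed (box R) := by
    have : box R = ⋂ i, {x : E2 | 0 ≤ x i ∧ x i ≤ R} := by
      ext x; simp [box]
    rw [this]
    apply isClosed_iInter
    intro i
    have hc : Continuous (fun x : E2 => x i) := by fun_prop
    exact (isClosed_le continuous_const hc).inter (isClosed_le hc continuous_const)
  have hbd : Bornology.IsBounded (box R) := by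
    rw [isBounded_iff_forall_norm_le]
    refine ⟨2 * |R|, ?_⟩
    intro x hx
    rw [EuclideanSpace.norm_eq]
    apply Real.sqrt_le_iff.2
    constructor
    · positivity
    · rw [Fin.sum_univ_two]
      have h0 := hx 0
      have h1 := hx 1
      have e0 : ‖x 0‖ ≤ |R| := by
        rw [Real.norm_eq_abs, abs_of_nonneg h0.1]; exact h0.2.trans (le_abs_self R)
      have e1 : ‖x 1‖ ≤ |R| := by
        rw [Real.norm_eq_abs, abs_of_nonneg h1.1]; exact h1.2.trans (le_abs_self R)
      nlinarith [norm_nonneg (x 0), norm_nonneg (x 1), abs_nonneg R]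
  exact Metric.isCompact_of_isClosed_isBounded hcl hbd

lemma gp_mem_box {R : ℝ} (hR : 0 ≤ R) {n : ℕ} (hn : 0 < n) {v : ℕ × ℕ} (h1 : v.1 ≤ n)
    (h2 : v.2 ≤ n) : gp R n v ∈ box R := by
  have hn' : (0 : ℝ) < n := by exact_mod_cast hn
  have key : ∀ k : ℕ, k ≤ n → 0 ≤ (k : ℝ) * (R / n) ∧ (k : ℝ) * (R / n) ≤ R := by
    intro k hk
    constructor
    · positivity
    · have hk' : (k : ℝ) ≤ n := by exact_mod_cast hk
      calc (k : ℝ) * (R / n) ≤ n * (R / n) := by gcongr
        _ = R := by field_simp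
  intro i
  fin_cases i
  · exact key v.1 h1
  · exact key v.2 h2

lemma gp_dist {R : ℝ} (hR : 0 ≤ R) {n : ℕ} {u v : ℕ × ℕ} (h : Adj u v) :
    dist (gp R n u) (gp R n v) ≤ 2 * (R / n) := by
  rw [dist_eq_norm, EuclideanSpace.norm_eq]
  apply Real.sqrt_le_iff.2
  constructor
  · positivity
  · rw [Fin.sum_univ_two]
    simp only [PiLp.sub_apply, gp_zero, gp_one, Real.norm_eq_abs, sq_abs]
    have e0 : ((u.1 : ℝ) - v.1) ^ 2 ≤ 1 := by
      have : (u.1 : ℝ) = v.1 ∨ (u.1 : ℝ) = v.1 + 1 ∨ (v.1 : ℝ) = u.1 + 1 := by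
        unfold Adj at h
        have : u.1 = v.1 ∨ u.1 = v.1 + 1 ∨ v.1 = u.1 + 1 := by omega
        rcases this with h | h | h
        · left; exact_mod_cast h
        · right; left; exact_mod_cast h
        · right; right; exact_mod_cast h
      rcases this with h | h | h <;> rw [h] <;> norm_num
    have e1 : ((u.2 : ℝ) - v.2) ^ 2 ≤ 1 := by
      have : (u.2 : ℝ) = v.2 ∨ (u.2 : ℝ) = v.2 + 1 ∨ (v.2 : ℝ) = u.2 + 1 := by
        unfold Adj at h
        have : u.2 = v.2 ∨ u.2 = v.2 + 1 ∨ v.2 = u.2 + 1 := by omega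
        rcases this with h | h | h
        · left; exact_mod_cast h
        · right; left; exact_mod_cast h
        · right; right; exact_mod_cast h
      rcases this with h | h | h <;> rw [h] <;> norm_num
    have e2 : 0 ≤ (R / n) ^ 2 := sq_nonneg _
    have : (↑u.1 * (R / ↑n) - ↑v.1 * (R / ↑n)) ^ 2 + (↑u.2 * (R / ↑n) - ↑v.2 * (R / ↑n)) ^ 2 =
        (((u.1 : ℝ) - v.1) ^ 2 + ((u.2 : ℝ) - v.2) ^ 2) * (R / n) ^ 2 := by ring
    rw [this]
    nlinarith

/-- For fine grids, a grid crossing below the level `ℓ - δ` yields a continuous crossing below the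
level `ℓ`. -/
theorem cross_of_grid {g : E2 → ℝ} (hg : Continuous g) {ℓ δ R : ℝ} (hδ : 0 < δ) (hR : 0 ≤ R) :
    ∃ N : ℕ, ∀ n : ℕ, N ≤ n → GridCross n (fun v => g (gp R n v) ≤ ℓ - δ) → Cross g ℓ R := by
  have huc := (box_compact R).uniformContinuousOn_of_continuous hg.continuousOn
  rw [Metric.uniformContinuousOn_iff] at huc
  obtain ⟨η, hη, huc⟩ := huc δ hδ
  obtain ⟨N, hN⟩ := exists_nat_gt (2 * R / η)
  refine ⟨N + 1, ?_⟩
  intro n hn hcr
  have hn0 : 0 < n := by omega
  have hn0' : (0 : ℝ) < n := by exact_mod_cast hn0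
  have hmesh : 2 * (R / n) < η := by
    have h1 : 2 * R / η < n := lt_of_lt_of_le hN (by exact_mod_cast (by omega : N ≤ n))
    rw [div_lt_iff₀ hη] at h1
    rw [← mul_div_assoc, div_lt_iff₀ hn0']
    linarith
  obtain ⟨j, hj, hreach⟩ := hcr
  -- every reached vertex is joined to the left side
  have key : ∀ v, Reach n (fun v => g (gp R n v) ≤ ℓ - δ) v →
      ∃ k : ℕ, JoinedIn {x | x ∈ box R ∧ g x ≤ ℓ} (gp R n (0, k)) (gp R n v) := by
    intro v hv
    induction hv with
    | start j hj hB =>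
      refine ⟨j, JoinedIn.refl ⟨gp_mem_box hR hn0 (Nat.zero_le _) hj, ?_⟩⟩
      have : g (gp R n (0, j)) ≤ ℓ - δ := hB
      linarith
    | step u v hu ha h1 h2 hB ih =>
      obtain ⟨k, hk⟩ := ih
      refine ⟨k, hk.trans ?_⟩
      apply JoinedIn.of_segment_subset
      intro z hz
      have hule := hu.le
      have hub := gp_mem_box hR hn0 hule.1 hule.2
      have hvb := gp_mem_box hR hn0 h1 h2
      have hzb : z ∈ box R := (box_convex R).segment_subset hub hvb hz
      refine ⟨hzb, ?_⟩
      have hd : dist z (gp R n v) ≤ 2 * (R / n) := by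
        have := (convex_closedBall (gp R n v) (2 * (R / n))).segment_subset
          (x := gp R n u) (y := gp R n v) (gp_dist hR ha)
          (Metric.mem_closedBall_self (by positivity)) hz
        exact this
      have h3 := huc z hzb (gp R n v) hvb (lt_of_le_of_lt hd hmesh)
      rw [Real.dist_eq] at h3
      have h4 := (abs_lt.1 h3).2
      have : g (gp R n v) ≤ ℓ - δ := hB
      linarith
  obtain ⟨k, hk⟩ := key _ hreach
  refine ⟨gp R n (0, k), gp R n (n, j), ?_, ?_, hk⟩
  · simp
  · simp only [gp_zero]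
    field_simp

variable {Ω : Type*} {mΩ : MeasurableSpace Ω} {P : Measure Ω} {f : E2 → Ω → ℝ} {κ : ℝ → ℝ}

/-- If all grid crossings have probability at least `1/2 - e` then so has the complement of the
complement of the continuous crossing. -/
theorem cross_prob (hf : IsPlanarField P f κ) {ℓ R : ℝ} (hℓ : ℓ < 0) (hR : 0 ≤ R) {e : ENNReal}
    (h : ∀ n : ℕ, 0 < n →
      (1 / 2 : ENNReal) ≤ P {ω | GridCross n (fun v => f (gp R n v) ω ≤ 2 * ℓ)} + e) :
    P (crossEvent f ℓ R)ᶜ ≤ 1 / 2 + e := by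
  have hP : IsProbabilityMeasure P := hf.gaussian.isProbabilityMeasure
  let D : ℕ → Set Ω := fun n => {ω | GridCross n (fun v => f (gp R n v) ω ≤ 2 * ℓ)}
  -- null measurability of the grid events
  have hDm : ∀ n, NullMeasurableSet (D n) P := by
    intro n
    have hlaw : HasGaussianLaw (fun ω (v : Fin (n + 1) × Fin (n + 1)) =>
        f (gp R n (bk n v)) ω) P := gaussian_vec_law hf.gaussian (fun v => gp R n (bk n v))
    have hm : AEMeasurable (fun ω (v : Fin (n + 1) × Fin (n + 1)) =>
        f (gp R n (bk n v)) ω - 2 * ℓ) P := by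
      have := hlaw.aemeasurable
      have h2 : Measurable (fun x : Fin (n + 1) × Fin (n + 1) → ℝ => fun v => x v - 2 * ℓ) := by
        fun_prop
      exact h2.comp_aemeasurable this
    have : D n = (fun ω (v : Fin (n + 1) × Fin (n + 1)) =>
        f (gp R n (bk n v)) ω - 2 * ℓ) ⁻¹' (TT n) := by
      ext ω
      constructor
      · intro hω
        refine GridCross.mono ?_ hω
        intro v h1 h2 hv
        show f (gp R n (bk n (emb n v))) ω - 2 * ℓ ≤ 0
        rw [bk_emb h1 h2]
        linarith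
      · intro hω
        refine GridCross.mono ?_ hω
        intro v h1 h2 hv
        have hv' : f (gp R n (bk n (emb n v))) ω - 2 * ℓ ≤ 0 := hv
        rw [bk_emb h1 h2] at hv'
        linarith
    rw [this]
    exact hm.nullMeasurable (TT_meas n)
  have hDc : ∀ n, 0 < n → P (D n)ᶜ ≤ 1 / 2 + e := by
    intro n hn
    have h1 := h n hn
    rw [prob_compl_eq_one_sub₀ (hDm n)]
    rw [tsub_le_iff_left]
    calc (1 : ENNReal) = 1 / 2 + 1 / 2 := by rw [ENNReal.add_halves]
      _ ≤ (P (D n) + e) + 1 / 2 := by gcongr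
      _ = P (D n) + (1 / 2 + e) := by rw [add_assoc, add_comm e]
  let E : ℕ → Set Ω := fun N => ⋂ n ∈ {n | N < n}, (D n)ᶜ
  have hEmono : Monotone E := by
    intro a b hab ω hω
    simp only [E, Set.mem_iInter, Set.mem_ofPred_eq] at hω ⊢
    intro n hn
    exact hω n (lt_of_le_of_lt hab hn)
  have hEle : ∀ N, P (E N) ≤ 1 / 2 + e := by
    intro N
    refine le_trans (measure_mono ?_) (hDc (N + 1) (Nat.succ_pos _))
    intro ω hω
    simp only [E, Set.mem_iInter, Set.mem_ofPred_eq] at hω
    exact hω (N + 1) (Nat.lt_succ_self _)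
  have hsub : (crossEvent f ℓ R)ᶜ ⊆ (⋃ N, E N) ∪ {ω | ¬ Continuous (fun x => f x ω)} := by
    intro ω hω
    by_cases hc : Continuous (fun x => f x ω)
    · left
      obtain ⟨N, hN⟩ := cross_of_grid hc (ℓ := ℓ) (δ := -ℓ) (R := R) (by linarith) hR
      refine Set.mem_iUnion.2 ⟨N, ?_⟩
      simp only [E, Set.mem_iInter, Set.mem_ofPred_eq]
      intro n hn hD
      apply hω
      refine hN n (le_of_lt hn) ?_
      have e : ℓ - -ℓ = 2 * ℓ := by ring
      rw [e]
      exact hD
    · exact Or.inr hc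
  calc P (crossEvent f ℓ R)ᶜ ≤ P ((⋃ N, E N) ∪ {ω | ¬ Continuous (fun x => f x ω)}) :=
        measure_mono hsub
    _ ≤ P (⋃ N, E N) + P {ω | ¬ Continuous (fun x => f x ω)} := measure_union_le _ _
    _ = P (⋃ N, E N) := by
        have : P {ω | ¬ Continuous (fun x => f x ω)} = 0 := hf.continuous
        rw [this, add_zero]
    _ = ⨆ N, P (E N) := hEmono.measure_iUnion
    _ ≤ 1 / 2 + e := iSup_le hEle

end GFPerc
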