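import Mathlib
import Pool.Agent.LibGFPerc.Path

/-!
# Estimates of lattice sums of the covariance kernel
-/

open MeasureTheory ProbabilityTheory Filter Topology
open scoped ENNReal NNReal

namespace GFPerc

/-- `∑_{k=1}^m k^{-β} ≤ m^{1-β}/(1-β)`. -/
lemma sum_rpow_le {β : ℝ} (h0 : 0 < β) (h1 : β < 1) (m : ℕ) :
    ∑ k ∈ Finset.range m, (1 + (k : ℝ)) ^ (-β) ≤ (m : ℝ) ^ (1 - β) / (1 - β) := by
  have hb : 0 < 1 - β := by linarith
  induction m with
  | zero =>
    simp [Real.zero_rpow hb.ne']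
  | succ m ih =>
    rw [Finset.sum_range_succ]
    have hm : (0 : ℝ) < (m : ℝ) + 1 := by positivity
    have key : (m : ℝ) ^ (1 - β) ≤ ((m : ℝ) + 1) ^ (1 - β) - (1 - β) * ((m : ℝ) + 1) ^ (-β) := by
      have e1 : (m : ℝ) = ((m : ℝ) + 1) * (1 + (-(1 / ((m : ℝ) + 1)))) := by field_simp; ring
      have hs : -1 ≤ -(1 / ((m : ℝ) + 1)) := by
        rw [neg_le_neg_iff, div_le_one hm]; linarith [(Nat.cast_nonneg m : (0:ℝ) ≤ m)]
      have e2 : (m : ℝ) ^ (1 - β) = ((m : ℝ) + 1) ^ (1 - β) *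
          (1 + (-(1 / ((m : ℝ) + 1)))) ^ (1 - β) := by
        conv_lhs => rw [e1]
        rw [Real.mul_rpow hm.le (by linarith)]
      have e3 := rpow_one_add_le_one_add_mul_self hs hb.le (by linarith : 1 - β ≤ 1)
      have e4 : ((m : ℝ) + 1) ^ (-β) = ((m : ℝ) + 1) ^ (1 - β) / ((m : ℝ) + 1) := by
        rw [← Real.rpow_sub_one hm.ne']
        congr 1; ring
      rw [e2, e4]
      have e5 : 0 ≤ ((m : ℝ) + 1) ^ (1 - β) := by positivity
      calc ((m : ℝ) + 1) ^ (1 - β) * (1 + -(1 / ((m : ℝ) + 1))) ^ (1 - β)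
          ≤ ((m : ℝ) + 1) ^ (1 - β) * (1 + (1 - β) * -(1 / ((m : ℝ) + 1))) := by gcongr
        _ = _ := by field_simp; ring
    push_cast
    rw [add_comm (1 : ℝ) (m : ℝ)]
    calc ∑ k ∈ Finset.range m, (1 + (k : ℝ)) ^ (-β) + ((m : ℝ) + 1) ^ (-β)
        ≤ (m : ℝ) ^ (1 - β) / (1 - β) + ((m : ℝ) + 1) ^ (-β) := by gcongr
      _ ≤ (((m : ℝ) + 1) ^ (1 - β) - (1 - β) * ((m : ℝ) + 1) ^ (-β)) / (1 - β) +
          ((m : ℝ) + 1) ^ (-β) := by gcongr
      _ = _ := by field_simp; ring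

/-- The one dimensional lattice sum seen from a lattice point. -/
lemma sum_abs_rpow_le {β : ℝ} (h0 : 0 < β) (h1 : β < 1) {m a : ℕ} (ha : a < m) :
    ∑ i ∈ Finset.range m, (1 + |(a : ℝ) - i|) ^ (-β) ≤ 2 * ((m : ℝ) ^ (1 - β) / (1 - β)) := by
  have hsplit : ∑ i ∈ Finset.range m, (1 + |(a : ℝ) - i|) ^ (-β) =
      ∑ i ∈ Finset.range (a + 1), (1 + |(a : ℝ) - i|) ^ (-β) +
        ∑ i ∈ Finset.Ico (a + 1) m, (1 + |(a : ℝ) - i|) ^ (-β) := by
    rw [Finset.sum_range_add_sum_Ico _ (by omega)]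
  have hleft : ∑ i ∈ Finset.range (a + 1), (1 + |(a : ℝ) - i|) ^ (-β) ≤
      (m : ℝ) ^ (1 - β) / (1 - β) := by
    rw [← Finset.sum_range_reflect]
    calc ∑ j ∈ Finset.range (a + 1), (1 + |(a : ℝ) - ((a + 1 - 1 - j : ℕ) : ℝ)|) ^ (-β)
        = ∑ j ∈ Finset.range (a + 1), (1 + (j : ℝ)) ^ (-β) := by
          apply Finset.sum_congr rfl
          intro j hj
          have hj' : j ≤ a := Nat.lt_succ_iff.1 (Finset.mem_range.1 hj)
          congr 2
          have : a + 1 - 1 - j = a - j := by omega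
          rw [this, Nat.cast_sub hj']
          rw [show (a : ℝ) - ((a : ℝ) - j) = j by ring]
          exact abs_of_nonneg (Nat.cast_nonneg j)
      _ ≤ ∑ j ∈ Finset.range m, (1 + (j : ℝ)) ^ (-β) := by
          apply Finset.sum_le_sum_of_subset_of_nonneg
          · intro j hj
            rw [Finset.mem_range] at *
            omega
          · intro j _ _
            positivity
      _ ≤ _ := sum_rpow_le h0 h1 m
  have hright : ∑ i ∈ Finset.Ico (a + 1) m, (1 + |(a : ℝ) - i|) ^ (-β) ≤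
      (m : ℝ) ^ (1 - β) / (1 - β) := by
    rw [Finset.sum_Ico_eq_sum_range]
    calc ∑ j ∈ Finset.range (m - (a + 1)), (1 + |(a : ℝ) - ((a + 1 + j : ℕ) : ℝ)|) ^ (-β)
        ≤ ∑ j ∈ Finset.range (m - (a + 1)), (1 + (j : ℝ)) ^ (-β) := by
          apply Finset.sum_le_sum
          intro j hj
          have e : |(a : ℝ) - ((a + 1 + j : ℕ) : ℝ)| = j + 1 := by
            push_cast
            rw [show (a : ℝ) - (a + 1 + j) = -(j + 1) by ring, abs_neg]
            exact abs_of_nonneg (by positivity)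
          rw [e]
          apply Real.rpow_le_rpow_of_nonpos (by positivity) (by linarith) (by linarith)
      _ ≤ ∑ j ∈ Finset.range m, (1 + (j : ℝ)) ^ (-β) := by
          apply Finset.sum_le_sum_of_subset_of_nonneg
          · intro j hj
            rw [Finset.mem_range] at *
            omega
          · intro j _ _
            positivity
      _ ≤ _ := sum_rpow_le h0 h1 m
  rw [hsplit]
  linarith

/-- Number of integers close to a real number. -/
lemma card_near (m : ℕ) (t r : ℝ) (hr : 0 ≤ r) :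
    (((Finset.range m).filter (fun i : ℕ => |t - i| < r)).card : ℝ) ≤ 2 * r + 1 := by
  classical
  set S := (Finset.range m).filter (fun i : ℕ => |t - i| < r) with hS
  rcases S.eq_empty_or_nonempty with h | h
  · rw [h]; simp; linarith
  · have h1 := S.min'_mem h
    have h2 := S.max'_mem h
    set a := S.min' h with ha
    set b := S.max' h with hb
    have hsub : S ⊆ Finset.Icc a b := by
      intro i hi
      rw [Finset.mem_Icc]
      exact ⟨S.min'_le i hi, S.le_max' i hi⟩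
    have hab : a ≤ b := S.min'_le b h2
    have hcard := Finset.card_le_card hsub
    rw [Nat.card_Icc] at hcard
    have ha' : |t - a| < r := (Finset.mem_filter.1 h1).2
    have hb' : |t - b| < r := (Finset.mem_filter.1 h2).2
    rw [abs_lt] at ha' hb'
    have h3 : (b : ℝ) - a < 2 * r := by linarith
    have h4 : (S.card : ℝ) ≤ ((b + 1 - a : ℕ) : ℝ) := by exact_mod_cast hcard
    rw [Nat.cast_sub (by omega)] at h4
    push_cast at h4
    linarith

/-- The hypotheses on the covariance kernel. -/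
structure KernelHyp (κ : ℝ → ℝ) (α c : ℝ) : Prop where
  pos : 0 < α
  lt_two : α < 2
  cpos : 0 < c
  le_zero : ∀ r, 0 ≤ r → |κ r| ≤ κ 0
  tend : Tendsto (fun r => κ r * r ^ α) atTop (𝓝 c)

/-- Pointwise bounds. -/
lemma KernelHyp.bounds {κ : ℝ → ℝ} {α c : ℝ} (h : KernelHyp κ α c) :
    ∃ r0 : ℝ, 1 ≤ r0 ∧ (∀ r, r0 ≤ r → c / 2 * r ^ (-α) ≤ κ r) ∧
      ∃ C0 : ℝ, 0 < C0 ∧ ∀ r, 0 ≤ r → |κ r| ≤ C0 * (1 + r) ^ (-α) := by
  have hα := h.pos
  have hc := h.cpos
  have h1 : ∀ᶠ r in atTop, c / 2 < κ r * r ^ α :=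
    h.tend.eventually (lt_mem_nhds (by linarith))
  have h2 : ∀ᶠ r in atTop, κ r * r ^ α < 2 * c :=
    h.tend.eventually (gt_mem_nhds (by linarith))
  obtain ⟨r0, hr0⟩ := eventually_atTop.1 ((h1.and h2).and (eventually_ge_atTop (1 : ℝ)))
  have hr01 : 1 ≤ r0 := (hr0 r0 le_rfl).2
  refine ⟨r0, hr01, ?_, ?_⟩
  · intro r hr
    have hr1 : 0 < r := by linarith
    have h3 := (hr0 r hr).1.1
    have h4 : κ r = κ r * r ^ α * r ^ (-α) := by
      rw [mul_assoc, ← Real.rpow_add hr1]; simp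
    rw [h4]
    gcongr
  · have hκ0 : 0 ≤ κ 0 := (abs_nonneg _).trans (h.le_zero 0 le_rfl)
    refine ⟨2 * c * 2 ^ α + κ 0 * (1 + r0) ^ α, by positivity, ?_⟩
    intro r hr
    rcases le_total r0 r with hrr | hrr
    · have hr1 : 0 < r := by linarith
      have h3 := (hr0 r hrr).1
      have h4 : κ r = κ r * r ^ α * r ^ (-α) := by
        rw [mul_assoc, ← Real.rpow_add hr1]; simp
      have h5 : 0 ≤ κ r := by
        rw [h4]
        exact mul_nonneg (by linarith [h3.1]) (by positivity)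
      have h6 : r ^ (-α) ≤ 2 ^ α * (1 + r) ^ (-α) := by
        have : (2 : ℝ) ^ α * (1 + r) ^ (-α) = ((1 + r) / 2) ^ (-α) := by
          rw [Real.div_rpow (by linarith) (by norm_num), Real.rpow_neg (by norm_num : (0:ℝ) ≤ 2)]
          field_simp
        rw [this]
        apply Real.rpow_le_rpow_of_nonpos (by linarith) (by linarith) (by linarith)
      rw [abs_of_nonneg h5, h4]
      calc κ r * r ^ α * r ^ (-α) ≤ 2 * c * (2 ^ α * (1 + r) ^ (-α)) := by
            apply mul_le_mul h3.2.le h6 (by positivity) (by positivity)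
        _ ≤ 2 * c * (2 ^ α * (1 + r) ^ (-α)) + κ 0 * (1 + r0) ^ α * (1 + r) ^ (-α) := by
            have : 0 ≤ κ 0 * (1 + r0) ^ α * (1 + r) ^ (-α) := by positivity
            linarith
        _ = _ := by ring
    · have h5 : (1 : ℝ) ≤ (1 + r0) ^ α * (1 + r) ^ (-α) := by
        rw [Real.rpow_neg (by linarith), ← div_eq_mul_inv, one_le_div (by positivity)]
        apply Real.rpow_le_rpow (by linarith) (by linarith) hα.le
      calc |κ r| ≤ κ 0 := h.le_zero r hr
        _ = κ 0 * 1 := by ring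
        _ ≤ κ 0 * ((1 + r0) ^ α * (1 + r) ^ (-α)) := by gcongr
        _ ≤ 2 * c * (2 ^ α * (1 + r) ^ (-α)) + κ 0 * ((1 + r0) ^ α * (1 + r) ^ (-α)) := by
            have : 0 ≤ 2 * c * (2 ^ α * (1 + r) ^ (-α)) := by positivity
            linarith
        _ = _ := by ring

/-- Product bound for the planar kernel. -/
lemma kernel_prod {α : ℝ} (hα : 0 < α) (x y : E2) :
    (1 + ‖x - y‖) ^ (-α) ≤ (1 + |x 0 - y 0|) ^ (-(α / 2)) * (1 + |x 1 - y 1|) ^ (-(α / 2)) := by
  set a := |x 0 - y 0| with ha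
  set b := |x 1 - y 1| with hb
  have ha0 : 0 ≤ a := abs_nonneg _
  have hb0 : 0 ≤ b := abs_nonneg _
  have hr : ‖x - y‖ ^ 2 = a ^ 2 + b ^ 2 := by
    rw [EuclideanSpace.norm_eq, Real.sq_sqrt (by positivity), Fin.sum_univ_two]
    simp only [PiLp.sub_apply, Real.norm_eq_abs]
    rfl
  have hr0 : 0 ≤ ‖x - y‖ := norm_nonneg _
  have har : a ≤ ‖x - y‖ := by
    apply le_of_sq_le_sq _ hr0
    nlinarith [sq_nonneg b]
  have hbr : b ≤ ‖x - y‖ := by
    apply le_of_sq_le_sq _ hr0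
    nlinarith [sq_nonneg a]
  have h1 : (1 + a) * (1 + b) ≤ (1 + ‖x - y‖) ^ 2 := by
    nlinarith [sq_nonneg (a - b)]
  rw [← Real.mul_rpow (by positivity) (by positivity)]
  have h2 : (1 + ‖x - y‖) ^ (-α) = ((1 + ‖x - y‖) ^ 2) ^ (-(α / 2)) := by
    rw [← Real.rpow_natCast, ← Real.rpow_mul (by positivity)]
    congr 1
    push_cast
    ring
  rw [h2]
  apply Real.rpow_le_rpow_of_nonpos (by positivity) h1 (by linarith)

lemma sum_fin_prod (m : ℕ) (g : ℕ → ℕ → ℝ) :
    ∑ y : Fin m × Fin m, g y.1 y.2 = ∑ i ∈ Finset.range m, ∑ j ∈ Finset.range m, g i j := by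
  rw [Fintype.sum_prod_type]
  rw [← Fin.sum_univ_eq_sum_range (fun i => ∑ j ∈ Finset.range m, g i j) m]
  apply Finset.sum_congr rfl
  intro i _
  rw [← Fin.sum_univ_eq_sum_range (fun j => g i j) m]

/-- Upper bound of the kernel sums at lattice points. -/
lemma ksum_le {κ : ℝ → ℝ} {α C0 : ℝ} (hα : 0 < α) (hα2 : α < 2) (hC0 : 0 < C0)
    (hb : ∀ r, 0 ≤ r → |κ r| ≤ C0 * (1 + r) ^ (-α)) {m : ℕ} {a b : ℕ} (ha : a < m) (hb' : b < m) :
    ksum κ m (lp (a, b)) ≤ C0 * (2 / (1 - α / 2)) ^ 2 * (m : ℝ) ^ (2 - α) := by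
  have hβ : 0 < α / 2 := by linarith
  have hβ1 : α / 2 < 1 := by linarith
  have hm : (0 : ℝ) < m := by exact_mod_cast (by omega : 0 < m)
  have e1 : ksum κ m (lp (a, b)) ≤ ∑ y : Fin m × Fin m,
      (fun i j : ℕ => C0 * ((1 + |(a : ℝ) - i|) ^ (-(α / 2)) * (1 + |(b : ℝ) - j|) ^ (-(α / 2))))
        y.1 y.2 := by
    unfold ksum
    apply Finset.sum_le_sum
    intro y _
    refine (le_abs_self _).trans ((hb _ (norm_nonneg _)).trans ?_)
    have := kernel_prod hα (lp (a, b)) (lp (y.1, y.2))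
    simp only [lp_zero, lp_one] at this
    exact mul_le_mul_of_nonneg_left this hC0.le
  refine e1.trans ?_
  rw [sum_fin_prod m (fun i j : ℕ => C0 * ((1 + |(a : ℝ) - i|) ^ (-(α / 2)) *
    (1 + |(b : ℝ) - j|) ^ (-(α / 2))))]
  have e2 : ∑ i ∈ Finset.range m, ∑ j ∈ Finset.range m,
      C0 * ((1 + |(a : ℝ) - i|) ^ (-(α / 2)) * (1 + |(b : ℝ) - j|) ^ (-(α / 2))) =
      C0 * ((∑ i ∈ Finset.range m, (1 + |(a : ℝ) - i|) ^ (-(α / 2))) *
        (∑ j ∈ Finset.range m, (1 + |(b : ℝ) - j|) ^ (-(α / 2)))) := by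
    rw [Finset.sum_mul_sum, Finset.mul_sum]
    apply Finset.sum_congr rfl
    intro i _
    rw [Finset.mul_sum]
  rw [e2]
  have h1 := sum_abs_rpow_le hβ hβ1 ha
  have h2 := sum_abs_rpow_le hβ hβ1 hb'
  have h3 : 0 ≤ ∑ i ∈ Finset.range m, (1 + |(a : ℝ) - i|) ^ (-(α / 2)) :=
    Finset.sum_nonneg fun i _ => by positivity
  have h4 : 0 ≤ ∑ i ∈ Finset.range m, (1 + |(b : ℝ) - i|) ^ (-(α / 2)) :=
    Finset.sum_nonneg fun i _ => by positivity
  have hb1 : 0 < 1 - α / 2 := by linarith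
  calc C0 * ((∑ i ∈ Finset.range m, (1 + |(a : ℝ) - i|) ^ (-(α / 2))) *
        (∑ j ∈ Finset.range m, (1 + |(b : ℝ) - j|) ^ (-(α / 2))))
      ≤ C0 * ((2 * ((m : ℝ) ^ (1 - α / 2) / (1 - α / 2))) *
        (2 * ((m : ℝ) ^ (1 - α / 2) / (1 - α / 2)))) := by gcongr
    _ = C0 * (2 / (1 - α / 2)) ^ 2 * ((m : ℝ) ^ (1 - α / 2) * (m : ℝ) ^ (1 - α / 2)) := by
        field_simp
    _ = _ := by
        rw [← Real.rpow_add hm]
        congr 2
        ring

/-- Number of lattice points near a point of the plane. -/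
lemma card_near2 (m : ℕ) (x : E2) (r : ℝ) (hr : 0 ≤ r) :
    (((Finset.univ : Finset (Fin m × Fin m)).filter
      (fun y => ‖x - lp (y.1, y.2)‖ < r)).card : ℝ) ≤ (2 * r + 1) ^ 2 := by
  classical
  set A := (Finset.range m).filter (fun i : ℕ => |x 0 - i| < r)
  set B := (Finset.range m).filter (fun i : ℕ => |x 1 - i| < r)
  have hA : (A.card : ℝ) ≤ 2 * r + 1 := card_near m (x 0) r hr
  have hB : (B.card : ℝ) ≤ 2 * r + 1 := card_near m (x 1) r hr
  have hinj : ((Finset.univ : Finset (Fin m × Fin m)).filter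
      (fun y => ‖x - lp (y.1, y.2)‖ < r)).card ≤ (A ×ˢ B).card := by
    apply Finset.card_le_card_of_injOn (fun y => ((y.1 : ℕ), (y.2 : ℕ)))
    · intro y hy
      simp only [Finset.coe_filter, Finset.mem_univ, true_and, Set.mem_ofPred_eq] at hy
      have key : ∀ i : Fin 2, |x i - lp (y.1, y.2) i| ≤ ‖x - lp (y.1, y.2)‖ := by
        intro i
        have := EuclideanSpace.norm_eq (x - lp (y.1, y.2))
        rw [this]
        apply Real.le_sqrt_of_sq_le
        rw [Fin.sum_univ_two]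
        fin_cases i
        · simp only [PiLp.sub_apply, Real.norm_eq_abs, Fin.zero_eta]
          nlinarith [sq_nonneg |x 1 - lp (y.1, y.2) 1|]
        · simp only [PiLp.sub_apply, Real.norm_eq_abs, Fin.mk_one]
          nlinarith [sq_nonneg |x 0 - lp (y.1, y.2) 0|]
      have k0 := key 0
      have k1 := key 1
      simp only [lp_zero, lp_one] at k0 k1
      simp only [A, B, Finset.coe_product, Finset.coe_filter, Finset.mem_range, Set.mem_prod,
        Set.mem_ofPred_eq]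
      exact ⟨⟨y.1.2, lt_of_le_of_lt k0 hy⟩, ⟨y.2.2, lt_of_le_of_lt k1 hy⟩⟩
    · intro y _ z _ hyz
      simp only [Prod.mk.injEq] at hyz
      exact Prod.ext (Fin.ext hyz.1) (Fin.ext hyz.2)
  have h2 : (((Finset.univ : Finset (Fin m × Fin m)).filter
      (fun y => ‖x - lp (y.1, y.2)‖ < r)).card : ℝ) ≤ (A.card : ℝ) * B.card := by
    rw [Finset.card_product] at hinj
    exact_mod_cast hinj
  calc _ ≤ (A.card : ℝ) * B.card := h2
    _ ≤ (2 * r + 1) * (2 * r + 1) := by gcongr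
    _ = _ := by ring

/-- Lower bound of the kernel sums on the box. -/
lemma le_ksum {κ : ℝ → ℝ} {α c r0 : ℝ} (hα : 0 < α) (hc : 0 < c) (hr0 : 1 ≤ r0)
    (hκ0 : ∀ r, 0 ≤ r → |κ r| ≤ κ 0)
    (hlow : ∀ r, r0 ≤ r → c / 2 * r ^ (-α) ≤ κ r) {m : ℕ} (hm : 0 < m) {x : E2}
    (hx : x ∈ box m) :
    c / 2 * 2 ^ (-α) * (m : ℝ) ^ (2 - α) - (2 * r0 + 1) ^ 2 * (c / 2 + κ 0) ≤ ksum κ m x := by
  classical
  have hm' : (0 : ℝ) < m := by exact_mod_cast hm
  have hm1 : (1 : ℝ) ≤ m := by exact_mod_cast hm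
  have hκ00 : 0 ≤ κ 0 := (abs_nonneg _).trans (hκ0 0 le_rfl)
  set w : ℝ := c / 2 * (2 * m) ^ (-α) with hw
  have hw0 : 0 ≤ w := by positivity
  have hw1 : w ≤ c / 2 := by
    have : (2 * (m : ℝ)) ^ (-α) ≤ 1 := Real.rpow_le_one_of_one_le_of_nonpos (by linarith)
      (by linarith)
    calc w = c / 2 * (2 * m) ^ (-α) := rfl
      _ ≤ c / 2 * 1 := by gcongr
      _ = c / 2 := by ring
  have hterm : ∀ y : Fin m × Fin m, w - (if ‖x - lp (y.1, y.2)‖ < r0 then (c / 2 + κ 0) else 0) ≤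
      κ ‖x - lp (y.1, y.2)‖ := by
    intro y
    split_ifs with h
    · have := hκ0 _ (norm_nonneg (x - lp (y.1, y.2)))
      have := (abs_le.1 this).1
      linarith
    · push Not at h
      have h1 := hlow _ h
      have h2 : ‖x - lp (y.1, y.2)‖ ≤ 2 * m := by
        rw [EuclideanSpace.norm_eq]
        apply Real.sqrt_le_iff.2
        constructor
        · positivity
        · rw [Fin.sum_univ_two]
          simp only [PiLp.sub_apply, lp_zero, lp_one, Real.norm_eq_abs, sq_abs]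
          have y0 : (0 : ℝ) ≤ ((y.1 : ℕ) : ℝ) := Nat.cast_nonneg _
          have y1 : (0 : ℝ) ≤ ((y.2 : ℕ) : ℝ) := Nat.cast_nonneg _
          have y0' : ((y.1 : ℕ) : ℝ) ≤ m := by exact_mod_cast y.1.2.le
          have y1' : ((y.2 : ℕ) : ℝ) ≤ m := by exact_mod_cast y.2.2.le
          have x0 := hx 0
          have x1 := hx 1
          have a0 : (x 0 - ((y.1 : ℕ) : ℝ)) ^ 2 ≤ (m : ℝ) ^ 2 := by
            apply sq_le_sq'
            · linarith
            · linarith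
          have a1 : (x 1 - ((y.2 : ℕ) : ℝ)) ^ 2 ≤ (m : ℝ) ^ 2 := by
            apply sq_le_sq'
            · linarith
            · linarith
          nlinarith
      have h3 : (2 * (m : ℝ)) ^ (-α) ≤ ‖x - lp (y.1, y.2)‖ ^ (-α) := by
        apply Real.rpow_le_rpow_of_nonpos (by linarith) h2 (by linarith)
      have h4 : w ≤ c / 2 * ‖x - lp (y.1, y.2)‖ ^ (-α) := by
        simp only [hw]
        gcongr
      linarith
  have hsum := Finset.sum_le_sum (fun (y : Fin m × Fin m) (_ : y ∈ Finset.univ) => hterm y)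
  rw [Finset.sum_sub_distrib, Finset.sum_const, Finset.card_univ, Fintype.card_prod,
    Fintype.card_fin, nsmul_eq_mul, ← Finset.sum_filter, Finset.sum_const, nsmul_eq_mul] at hsum
  have hcard := card_near2 m x r0 (by linarith)
  have e : ((m * m : ℕ) : ℝ) * w = c / 2 * 2 ^ (-α) * (m : ℝ) ^ (2 - α) := by
    simp only [hw]
    rw [Real.mul_rpow (by norm_num) hm'.le]
    push_cast
    have : (m : ℝ) ^ (2 - α) = (m : ℝ) * m * (m : ℝ) ^ (-α) := by
      rw [sub_eq_add_neg, Real.rpow_add hm', Real.rpow_two]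
      ring
    rw [this]
    ring
  rw [e] at hsum
  have h5 : (((Finset.univ : Finset (Fin m × Fin m)).filter
      (fun y => ‖x - lp (y.1, y.2)‖ < r0)).card : ℝ) * (c / 2 + κ 0) ≤
      (2 * r0 + 1) ^ 2 * (c / 2 + κ 0) := by
    gcongr
  unfold ksum
  linarith

end GFPerc
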