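import Mathlib
import Pool.Agent.LibGFPerc.Kernel

/-!
# Lower bound for the correlation length
-/

open MeasureTheory ProbabilityTheory Filter Topology
open scoped ENNReal NNReal

namespace GFPerc

variable {Ω : Type*} {mΩ : MeasurableSpace Ω} {P : Measure Ω} {f : E2 → Ω → ℝ} {κ : ℝ → ℝ}

lemma kernel_le_zero (hf : IsPlanarField P f κ) (r : ℝ) (hr : 0 ≤ r) : |κ r| ≤ κ 0 := by
  have hP : IsProbabilityMeasure P := hf.gaussian.isProbabilityMeasure
  set x : E2 := 0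
  set y : E2 := !₂[r, 0] with hy
  have hxy : ‖x - y‖ = r := by
    rw [zero_sub, norm_neg, EuclideanSpace.norm_eq, Fin.sum_univ_two]
    simp only [hy, PiLp.toLp_apply, Matrix.cons_val_zero, Matrix.cons_val_one, norm_zero]
    rw [Real.norm_eq_abs, sq_abs]
    simp [Real.sqrt_sq hr]
  have hyx : ‖y - x‖ = r := by rw [norm_sub_rev]; exact hxy
  have h2 : ∀ x, MemLp (f x) 2 P := fun x => (hf.gaussian.hasGaussianLaw_eval x).memLp_two
  have hae : ∀ x, AEMeasurable (f x) P := fun x => hf.gaussian.aemeasurable x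
  have cxx : covariance (f x) (f x) P = κ 0 := by rw [hf.cov_eq, sub_self, norm_zero]
  have cyy : covariance (f y) (f y) P = κ 0 := by rw [hf.cov_eq, sub_self, norm_zero]
  have cxy : covariance (f x) (f y) P = κ r := by rw [hf.cov_eq, hxy]
  have cyx : covariance (f y) (f x) P = κ r := by rw [hf.cov_eq, hyx]
  have hplus : 0 ≤ covariance (f x + f y) (f x + f y) P := by
    rw [covariance_self ((hae x).add (hae y))]
    exact variance_nonneg _ _
  have hminus : 0 ≤ covariance (f x - f y) (f x - f y) P := by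
    rw [covariance_self ((hae x).sub (hae y))]
    exact variance_nonneg _ _
  rw [covariance_add_left (h2 x) (h2 y) ((h2 x).add (h2 y)),
    covariance_add_right (h2 x) (h2 x) (h2 y), covariance_add_right (h2 y) (h2 x) (h2 y),
    cxx, cyy, cxy, cyx] at hplus
  rw [covariance_sub_left (h2 x) (h2 y) ((h2 x).sub (h2 y)),
    covariance_sub_right (h2 x) (h2 x) (h2 y), covariance_sub_right (h2 y) (h2 x) (h2 y),
    cxx, cyy, cxy, cyx] at hminus
  rw [abs_le]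
  constructor <;> linarith

/-- The quantitative bound. -/
theorem crossing_bound (hf : IsPlanarField P f κ) {α c : ℝ} (hα : 0 < α) (hα2 : α < 2)
    (hc : 0 < c) (hκ : Tendsto (fun r => κ r * r ^ α) atTop (𝓝 c)) :
    ∃ C : ℝ, 0 < C ∧ ∀ ℓ : ℝ, ℓ < 0 → ∀ R : ℝ, 0 ≤ R →
      P (crossEvent f ℓ R)ᶜ ≤ 1 / 2 + ENNReal.ofReal (C * |ℓ| * (1 + R) ^ (α / 2)) := by
  have hH : KernelHyp κ α c := ⟨hα, hα2, hc, kernel_le_zero hf, hκ⟩
  obtain ⟨r0, hr0, hlow, C0, hC0, hup⟩ := hH.bounds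
  have hκ00 : 0 ≤ κ 0 := (abs_nonneg _).trans (kernel_le_zero hf 0 le_rfl)
  set q0 : ℝ := c / 4 * 2 ^ (-α) with hq0
  have hq0pos : 0 < q0 := by positivity
  set V1 : ℝ := C0 * (2 / (1 - α / 2)) ^ 2 with hV1
  have hV1pos : 0 < V1 := by
    have : 0 < 1 - α / 2 := by linarith
    positivity
  -- choose m0
  have htop : Tendsto (fun m : ℕ => q0 * (m : ℝ) ^ (2 - α)) atTop atTop := by
    apply Tendsto.const_mul_atTop hq0pos
    exact (tendsto_rpow_atTop (by linarith : 0 < 2 - α)).comp tendsto_natCast_atTop_atTop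
  obtain ⟨m0, hm0⟩ := eventually_atTop.1
    ((htop.eventually_ge_atTop ((2 * r0 + 1) ^ 2 * (c / 2 + κ 0))).and (eventually_ge_atTop 1))
  have hm01 : 1 ≤ m0 := (hm0 m0 le_rfl).2
  set C : ℝ := 2 * Real.sqrt V1 / (q0 * Real.sqrt (2 * Real.pi)) * ((m0 : ℝ) + 1) ^ (α / 2) with hC
  have hsp : 0 < Real.sqrt (2 * Real.pi) := Real.sqrt_pos.2 (by positivity)
  have hsV : 0 < Real.sqrt V1 := Real.sqrt_pos.2 hV1pos
  refine ⟨C, by positivity, ?_⟩
  intro ℓ hℓ R hR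
  set m : ℕ := max m0 ⌈R⌉₊ with hm
  have hmm0 : m0 ≤ m := le_max_left _ _
  have hmpos : 0 < m := by omega
  have hmpos' : (0 : ℝ) < m := by exact_mod_cast hmpos
  have hRm : R ≤ m := (Nat.le_ceil R).trans (by exact_mod_cast le_max_right _ _)
  have hmR : (m : ℝ) ≤ ((m0 : ℝ) + 1) * (1 + R) := by
    have h1 : (m : ℝ) = max (m0 : ℝ) (⌈R⌉₊ : ℝ) := by rw [hm]; push_cast; rfl
    rw [h1]
    apply max_le
    · nlinarith [(Nat.cast_nonneg m0 : (0:ℝ) ≤ m0)]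
    · have := (Nat.ceil_lt_add_one hR).le
      nlinarith [(Nat.cast_nonneg m0 : (0:ℝ) ≤ m0)]
  have hq : ∀ x : E2, x ∈ box m → q0 * (m : ℝ) ^ (2 - α) ≤ ksum κ m x := by
    intro x hx
    have h1 := le_ksum hα hc hr0 (kernel_le_zero hf) hlow hmpos hx
    have h2 := (hm0 m hmm0).1
    have h3 : c / 2 * 2 ^ (-α) * (m : ℝ) ^ (2 - α) = 2 * (q0 * (m : ℝ) ^ (2 - α)) := by
      rw [hq0]; ring
    rw [h3] at h1
    linarith
  have hqpos : 0 < q0 * (m : ℝ) ^ (2 - α) := by positivity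
  have hlpbox : ∀ y : Fin m × Fin m, lp ((y.1 : ℕ), (y.2 : ℕ)) ∈ box m := by
    intro y i
    fin_cases i
    · refine ⟨Nat.cast_nonneg _, ?_⟩
      show ((y.1 : ℕ) : ℝ) ≤ m
      exact_mod_cast y.1.2.le
    · refine ⟨Nat.cast_nonneg _, ?_⟩
      show ((y.2 : ℕ) : ℝ) ≤ m
      exact_mod_cast y.2.2.le
  have hV0 : 0 < ∑ y : Fin m × Fin m, ksum κ m (lp (y.1, y.2)) := by
    apply Finset.sum_pos
    · intro y _
      exact lt_of_lt_of_le hqpos (hq _ (hlpbox y))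
    · exact ⟨(⟨0, hmpos⟩, ⟨0, hmpos⟩), Finset.mem_univ _⟩
  have hV : ∑ y : Fin m × Fin m, ksum κ m (lp (y.1, y.2)) ≤
      V1 * ((m : ℝ) ^ (2 - α / 2)) ^ 2 := by
    calc ∑ y : Fin m × Fin m, ksum κ m (lp (y.1, y.2))
        ≤ ∑ _y : Fin m × Fin m, V1 * (m : ℝ) ^ (2 - α) := by
          apply Finset.sum_le_sum
          intro y _
          exact ksum_le hα hα2 hC0 hup y.1.2 y.2.2
      _ = (m : ℝ) * m * (V1 * (m : ℝ) ^ (2 - α)) := by
          rw [Finset.sum_const, Finset.card_univ, Fintype.card_prod, Fintype.card_fin,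
            nsmul_eq_mul]
          push_cast
          ring
      _ = V1 * ((m : ℝ) ^ (2 - α / 2)) ^ 2 := by
          have : ((m : ℝ) ^ (2 - α / 2)) ^ 2 = (m : ℝ) * m * (m : ℝ) ^ (2 - α) := by
            rw [← Real.rpow_natCast, ← Real.rpow_mul hmpos'.le]
            have e1 : (m : ℝ) * m = (m : ℝ) ^ (2 : ℝ) := by rw [Real.rpow_two]; ring
            rw [e1, ← Real.rpow_add hmpos']
            congr 1
            push_cast
            ring
          rw [this]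
          ring
  have hd : 0 ≤ -(2 * ℓ) := by linarith
  apply cross_prob hf hℓ hR
  intro n hn
  have key := grid_le hf R n m hqpos (fun v h1 h2 => hq _ (by
    have := gp_mem_box hR hn h1 h2
    intro i
    exact ⟨(this i).1, (this i).2.trans hRm⟩)) hV hV0 hd
  rw [neg_neg] at key
  refine key.trans ?_
  gcongr
  have e1 : Real.sqrt (V1 * ((m : ℝ) ^ (2 - α / 2)) ^ 2) =
      Real.sqrt V1 * (m : ℝ) ^ (2 - α / 2) := by
    rw [Real.sqrt_mul hV1pos.le, Real.sqrt_sq (by positivity)]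
  rw [e1]
  have e2 : (m : ℝ) ^ (2 - α / 2) = (m : ℝ) ^ (2 - α) * (m : ℝ) ^ (α / 2) := by
    rw [← Real.rpow_add hmpos']
    congr 1
    ring
  rw [e2]
  have e3 : (m : ℝ) ^ (α / 2) ≤ ((m0 : ℝ) + 1) ^ (α / 2) * (1 + R) ^ (α / 2) := by
    rw [← Real.mul_rpow (by positivity) (by linarith)]
    exact Real.rpow_le_rpow hmpos'.le hmR (by linarith)
  have e4 : |ℓ| = -ℓ := abs_of_neg hℓ
  rw [e4]
  have e5 : -(2 * ℓ) * (Real.sqrt V1 * ((m : ℝ) ^ (2 - α) * (m : ℝ) ^ (α / 2))) /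
      (q0 * (m : ℝ) ^ (2 - α) * Real.sqrt (2 * Real.pi)) =
      2 * Real.sqrt V1 / (q0 * Real.sqrt (2 * Real.pi)) * -ℓ * (m : ℝ) ^ (α / 2) := by
    have : (m : ℝ) ^ (2 - α) ≠ 0 := by positivity
    field_simp
  rw [e5]
  have h0 : 0 ≤ 2 * Real.sqrt V1 / (q0 * Real.sqrt (2 * Real.pi)) * -ℓ :=
    mul_nonneg (by positivity) (by linarith)
  calc 2 * Real.sqrt V1 / (q0 * Real.sqrt (2 * Real.pi)) * -ℓ * (m : ℝ) ^ (α / 2)
      ≤ 2 * Real.sqrt V1 / (q0 * Real.sqrt (2 * Real.pi)) * -ℓ *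
        (((m0 : ℝ) + 1) ^ (α / 2) * (1 + R) ^ (α / 2)) := by gcongr
    _ = _ := by rw [hC]; ring

/-- From the quantitative bound to the correlation length. -/
theorem xi_bound [IsProbabilityMeasure P] {α C : ℝ} (hα : 0 < α) (hC : 0 < C)
    (h : ∀ ℓ : ℝ, ℓ < 0 → ∀ R : ℝ, 0 ≤ R →
      P (crossEvent f ℓ R)ᶜ ≤ 1 / 2 + ENNReal.ofReal (C * |ℓ| * (1 + R) ^ (α / 2)))
    {ε : ℝ} (hε : 0 < ε) (hε2 : ε < 1 / 2) :
    ∃ c' : ℝ, 0 < c' ∧ ∀ᶠ ℓ in 𝓝[<] (0 : ℝ),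
      ENNReal.ofReal (c' * |ℓ| ^ (-(2 / α))) ≤ xi P f ε ℓ := by
  set A : ℝ := ((1 / 2 - ε) / C) ^ (2 / α) with hA
  have hApos : 0 < A := by
    have : 0 < 1 / 2 - ε := by linarith
    positivity
  refine ⟨A / 2, by positivity, ?_⟩
  -- eventually `2 ≤ A * |ℓ|^(-2/α)`
  have hsmall : ∀ᶠ ℓ in 𝓝[<] (0 : ℝ), ℓ < 0 ∧ |ℓ| < (A / 2) ^ (α / 2) := by
    have hpos : 0 < (A / 2) ^ (α / 2) := by positivity
    have h1 : ∀ᶠ ℓ in 𝓝[<] (0 : ℝ), ℓ < 0 := eventually_mem_nhdsWithin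
    have h2 : ∀ᶠ ℓ in 𝓝[<] (0 : ℝ), |ℓ| < (A / 2) ^ (α / 2) := by
      apply eventually_nhdsWithin_of_eventually_nhds
      have : Tendsto (fun ℓ : ℝ => |ℓ|) (𝓝 0) (𝓝 0) := by
        simpa using (continuous_abs.tendsto (0 : ℝ))
      exact this.eventually (gt_mem_nhds hpos)
    exact h1.and h2
  filter_upwards [hsmall] with ℓ hℓ
  obtain ⟨hℓ0, hℓ1⟩ := hℓ
  have habs : 0 < |ℓ| := abs_pos.2 hℓ0.ne
  have hbig : 2 ≤ A * |ℓ| ^ (-(2 / α)) := by
    have h1 : |ℓ| ^ (2 / α) ≤ A / 2 := by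
      calc |ℓ| ^ (2 / α) ≤ ((A / 2) ^ (α / 2)) ^ (2 / α) := by
            apply Real.rpow_le_rpow habs.le hℓ1.le (by positivity)
        _ = A / 2 := by
            rw [← Real.rpow_mul (by positivity)]
            have : α / 2 * (2 / α) = 1 := by field_simp
            rw [this, Real.rpow_one]
    have h2 : 0 < |ℓ| ^ (2 / α) := by positivity
    rw [Real.rpow_neg habs.le, ← div_eq_mul_inv, le_div_iff₀ h2]
    linarith
  unfold xi
  apply le_sInf
  rintro r ⟨R, hR, rfl, hPR⟩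
  apply ENNReal.ofReal_le_ofReal
  have h1 := h ℓ hℓ0 R hR
  -- 1 ≤ P(cross) + P(crossᶜ)
  have h2 : (1 : ENNReal) ≤ P (crossEvent f ℓ R) + P (crossEvent f ℓ R)ᶜ := by
    calc (1 : ENNReal) = P Set.univ := measure_univ.symm
      _ = P (crossEvent f ℓ R ∪ (crossEvent f ℓ R)ᶜ) := by rw [Set.union_compl_self]
      _ ≤ _ := measure_union_le _ _
  have h3 : (1 : ENNReal) < ENNReal.ofReal (ε + (1 / 2 + C * |ℓ| * (1 + R) ^ (α / 2))) := by
    have hnn : 0 ≤ C * |ℓ| * (1 + R) ^ (α / 2) := by positivity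
    have hhalf : (1 / 2 : ENNReal) = ENNReal.ofReal (1 / 2) := by
      rw [ENNReal.ofReal_div_of_pos (by norm_num)]
      simp
    rw [ENNReal.ofReal_add hε.le (by positivity), ENNReal.ofReal_add (by norm_num) hnn, ← hhalf]
    refine lt_of_le_of_lt h2 ?_
    exact ENNReal.add_lt_add_of_lt_of_le (measure_ne_top P _) hPR h1
  rw [← ENNReal.ofReal_one, ENNReal.ofReal_lt_ofReal_iff (by positivity)] at h3
  have h4 : (1 / 2 - ε) / C * |ℓ|⁻¹ < (1 + R) ^ (α / 2) := by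
    have : (1 / 2 - ε) < C * |ℓ| * (1 + R) ^ (α / 2) := by linarith
    have h5 : (1 / 2 - ε) / C * |ℓ|⁻¹ = (1 / 2 - ε) / (C * |ℓ|) := by
      field_simp
    rw [h5, div_lt_iff₀ (by positivity)]
    linarith
  have h6 : A * |ℓ| ^ (-(2 / α)) ≤ 1 + R := by
    have hh : 0 < 1 / 2 - ε := by linarith
    have h7 : ((1 / 2 - ε) / C * |ℓ|⁻¹) ^ (2 / α) ≤ ((1 + R) ^ (α / 2)) ^ (2 / α) :=
      Real.rpow_le_rpow (by positivity) h4.le (by positivity)
    rw [← Real.rpow_mul (by positivity), show α / 2 * (2 / α) = 1 by field_simp,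
      Real.rpow_one, Real.mul_rpow (by positivity) (by positivity),
      Real.inv_rpow habs.le, ← Real.rpow_neg habs.le] at h7
    exact h7
  linarith

end GFPerc
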